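import Mathlib

/-!
# The centre of a Lie algebra of tuples of matrices which generate all tuples
-/

set_option autoImplicit false
set_option linter.unusedSectionVars false

open Module Matrix

namespace Pool.Agent.TH128.OM

attribute [local instance 100] LieRing.ofAssociativeRing

/-- The radical acts on an irreducible module by scalars. -/
theorem radical_scalar {L M : Type} [LieRing L] [LieAlgebra ℂ L] [Module.Finite ℂ L]
    [AddCommGroup M] [Module ℂ M] [LieRingModule L M] [LieModule ℂ L M] [Module.Finite ℂ M]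
    [Nontrivial M] (hirr : ∀ S : LieSubmodule ℂ L M, S ≠ ⊥ → S = ⊤) {x : L}
    (hx : x ∈ LieAlgebra.radical ℂ L) : ∃ c : ℂ, ∀ m : M, ⁅x, m⁆ = c • m := by
  obtain ⟨χ, hχ⟩ : ∃ χ : Module.Dual ℂ (LieAlgebra.radical ℂ L),
      Nontrivial (LieModule.weightSpace M χ) :=
    LieModule.exists_nontrivial_weightSpace_of_isSolvable ℂ (LieAlgebra.radical ℂ L) M
  let S : LieSubmodule ℂ L M := LieModule.weightSpaceOfIsLieTower ℂ M χ
  replace hχ : Nontrivial S := hχ
  replace hχ : S = ⊤ := hirr S (by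
    intro h
    rw [h] at hχ
    exact not_nontrivial _ hχ)
  refine ⟨χ ⟨x, hx⟩, fun m => ?_⟩
  have h1 : m ∈ S := by
    rw [hχ]
    exact LieSubmodule.mem_top m
  have h2 : ∀ (y : L) (hy : y ∈ LieAlgebra.radical ℂ L), ⁅y, m⁆ = χ ⟨y, hy⟩ • m := by
    simpa [S, LieModule.weightSpaceOfIsLieTower, LieModule.mem_weightSpace] using h1
  exact h2 x hx

variable {J : Type} [Fintype J] [DecidableEq J] {N : J → Type}
  [∀ j, Fintype (N j)] [∀ j, DecidableEq (N j)] [∀ j, Nonempty (N j)]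

/-- The Lie subalgebra given by a subspace closed under commutators. -/
def lieSub (l : Submodule ℂ (∀ j, Matrix (N j) (N j) ℂ))
    (hbr : ∀ x ∈ l, ∀ y ∈ l, x * y - y * x ∈ l) : LieSubalgebra ℂ (∀ j, Matrix (N j) (N j) ℂ) :=
  { l with lie_mem' := fun {x y} hx hy => hbr x hx y hy }

variable {l : Submodule ℂ (∀ j, Matrix (N j) (N j) ℂ)}
  {hbr : ∀ x ∈ l, ∀ y ∈ l, x * y - y * x ∈ l}

/-- The action on one factor. -/
@[reducible] def modRing (hbr : ∀ x ∈ l, ∀ y ∈ l, x * y - y * x ∈ l) (j : J) :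
    LieRingModule (lieSub l hbr) (N j → ℂ) where
  bracket x v := (x.1 j) *ᵥ v
  add_lie x y v := by
    change ((x.1 + y.1) j) *ᵥ v = x.1 j *ᵥ v + y.1 j *ᵥ v
    rw [Pi.add_apply, Matrix.add_mulVec]
  lie_add x v w := Matrix.mulVec_add _ _ _
  leibniz_lie x y v := by
    change x.1 j *ᵥ (y.1 j *ᵥ v) = ((x.1 * y.1 - y.1 * x.1) j) *ᵥ v + y.1 j *ᵥ (x.1 j *ᵥ v)
    rw [Pi.sub_apply, Pi.mul_apply, Pi.mul_apply, Matrix.sub_mulVec, Matrix.mulVec_mulVec,
      Matrix.mulVec_mulVec]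
    abel

theorem adjoin_ind {p : (∀ j, Matrix (N j) (N j) ℂ) → Prop}
    (hgen : Algebra.adjoin ℂ (l : Set (∀ j, Matrix (N j) (N j) ℂ)) = ⊤)
    (h1 : p 1) (h2 : ∀ x ∈ l, p x) (h3 : ∀ x y, p x → p y → p (x + y))
    (h4 : ∀ x y, p x → p y → p (x * y)) (h5 : ∀ (c : ℂ) x, p x → p (c • x))
    (x : ∀ j, Matrix (N j) (N j) ℂ) : p x := by
  have hx : x ∈ Algebra.adjoin ℂ (l : Set (∀ j, Matrix (N j) (N j) ℂ)) := by
    rw [hgen]
    exact Algebra.mem_top
  induction hx using Algebra.adjoin_induction with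
  | mem x hx => exact h2 x hx
  | algebraMap r =>
    rw [Algebra.algebraMap_eq_smul_one]
    exact h5 _ _ h1
  | add x y _ _ hx hy => exact h3 _ _ hx hy
  | mul x y _ _ hx hy => exact h4 _ _ hx hy

/-- The elements of the radical have scalar components. -/
theorem radical_entry (hgen : Algebra.adjoin ℂ (l : Set (∀ j, Matrix (N j) (N j) ℂ)) = ⊤)
    {x : lieSub l hbr} (hx : x ∈ LieAlgebra.radical ℂ (lieSub l hbr)) (j : J) :
    ∃ c : ℂ, x.1 j = c • 1 := by
  let _ : LieRingModule (lieSub l hbr) (N j → ℂ) := modRing hbr j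
  have _ : LieModule ℂ (lieSub l hbr) (N j → ℂ) :=
    { smul_lie := fun c x v => by
        change (c • x.1 : ∀ j, Matrix (N j) (N j) ℂ) j *ᵥ v = c • (x.1 j *ᵥ v)
        rw [Pi.smul_apply, Matrix.smul_mulVec]
      lie_smul := fun c x v => by
        change x.1 j *ᵥ (c • v) = c • (x.1 j *ᵥ v)
        rw [Matrix.mulVec_smul] }
  obtain ⟨c, hc⟩ := radical_scalar (M := N j → ℂ) (by
    intro S hS
    rw [Ne, LieSubmodule.eq_bot_iff] at hS
    push Not at hS
    obtain ⟨v, hv, hv0⟩ := hS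
    have h1 : ∀ x : ∀ j, Matrix (N j) (N j) ℂ, ∀ v ∈ S, (x j) *ᵥ v ∈ S := by
      refine adjoin_ind hgen ?_ ?_ ?_ ?_ ?_
      · intro v hv
        rw [Pi.one_apply, Matrix.one_mulVec]
        exact hv
      · intro x hx v hv
        exact S.lie_mem (x := (⟨x, hx⟩ : lieSub l hbr)) hv
      · intro x y hx hy v hv
        rw [Pi.add_apply, Matrix.add_mulVec]
        exact S.add_mem (hx v hv) (hy v hv)
      · intro x y hx hy v hv
        rw [Pi.mul_apply, ← Matrix.mulVec_mulVec]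
        exact hx _ (hy v hv)
      · intro c x hx v hv
        rw [Pi.smul_apply, Matrix.smul_mulVec]
        exact S.smul_mem _ (hx v hv)
    rw [eq_top_iff]
    intro w _
    obtain ⟨b, hb⟩ := Function.ne_iff.1 hv0
    have h2 := h1 (Pi.single j (Matrix.of fun a b' => if b' = b then w a / v b else 0)) v hv
    rw [Pi.single_eq_same] at h2
    have h3 : (Matrix.of fun a b' => if b' = b then w a / v b else 0) *ᵥ v = w := by
      funext a
      rw [Matrix.mulVec, dotProduct, Finset.sum_eq_single b]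
      · rw [Matrix.of_apply, if_pos rfl]
        exact div_mul_cancel₀ _ hb
      · intro b' _ hb'
        rw [Matrix.of_apply, if_neg hb', zero_mul]
      · intro h
        exact absurd (Finset.mem_univ b) h
    rw [h3] at h2
    exact h2) hx
  refine ⟨c, Matrix.ext_of_mulVec_single fun b => ?_⟩
  rw [Matrix.smul_mulVec, Matrix.one_mulVec]
  exact hc _

/-- A scalar matrix with trace zero is zero. -/
theorem scalar_zero {N₁ : Type} [Fintype N₁] [DecidableEq N₁] [Nonempty N₁] {X : Matrix N₁ N₁ ℂ}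
    {c : ℂ} (h1 : X = c • 1) (h2 : X.trace = 0) : X = 0 := by
  rw [h1, Matrix.trace_smul, Matrix.trace_one, smul_eq_mul] at h2
  rcases mul_eq_zero.1 h2 with h | h
  · rw [h1, h, zero_smul]
  · exact absurd h (Nat.cast_ne_zero.2 Fintype.card_ne_zero)

theorem trace_br {N₁ : Type} [Fintype N₁] [DecidableEq N₁] (X Y : Matrix N₁ N₁ ℂ) :
    (X * Y - Y * X).trace = 0 := by
  rw [Matrix.trace_sub, Matrix.trace_mul_comm, sub_self]

/-- An element commuting with `l` has scalar components. -/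
theorem central_entry (hgen : Algebra.adjoin ℂ (l : Set (∀ j, Matrix (N j) (N j) ℂ)) = ⊤)
    {x : ∀ j, Matrix (N j) (N j) ℂ} (hx : ∀ y ∈ l, x * y - y * x = 0) (j : J) :
    ∃ c : ℂ, x j = c • 1 := by
  have h1 : ∀ y : ∀ j, Matrix (N j) (N j) ℂ, x * y = y * x := by
    refine adjoin_ind hgen ?_ ?_ ?_ ?_ ?_
    · rw [mul_one, one_mul]
    · intro y hy
      exact sub_eq_zero.1 (hx y hy)
    · intro y z hy hz
      rw [mul_add, add_mul, hy, hz]
    · intro y z hy hz
      rw [← mul_assoc, hy, mul_assoc, hz, mul_assoc]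
    · intro c y hy
      rw [mul_smul_comm, smul_mul_assoc, hy]
  have h2 : x j ∈ Set.range (Matrix.scalar (N j)) := by
    refine Matrix.mem_range_scalar_of_commute_single fun a b _ => ?_
    have h3 := congrFun (h1 (Pi.single j (Matrix.single a b 1))) j
    rw [Pi.mul_apply, Pi.mul_apply, Pi.single_eq_same] at h3
    exact h3.symm
  obtain ⟨c, hc⟩ := h2
  exact ⟨c, by rw [← hc, Matrix.scalar_apply, Matrix.smul_one_eq_diagonal]⟩

/-- The commutators. -/
def Dc (hbr : ∀ x ∈ l, ∀ y ∈ l, x * y - y * x ∈ l) : Submodule ℂ (lieSub l hbr) :=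
  Submodule.span ℂ {z | ∃ x y : lieSub l hbr, z = ⁅x, y⁆}

theorem trace_Dc {x : lieSub l hbr} (hx : x ∈ Dc hbr) (j : J) : (x.1 j).trace = 0 := by
  unfold Dc at hx
  induction hx using Submodule.span_induction with
  | mem x hx =>
    obtain ⟨y, z, rfl⟩ := hx
    exact trace_br (y.1 j) (z.1 j)
  | zero => exact Matrix.trace_zero _ _
  | add x y _ _ hx hy =>
    change ((x.1 + y.1) j).trace = 0
    rw [Pi.add_apply, Matrix.trace_add, hx, hy, add_zero]
  | smul c x _ hx =>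
    change ((c • x.1) j).trace = 0
    rw [Pi.smul_apply, Matrix.trace_smul, hx, smul_zero]

/-- The elements which are orthogonal to the commutators. -/
noncomputable def Oc (hbr : ∀ x ∈ l, ∀ y ∈ l, x * y - y * x ∈ l) : Submodule ℂ (lieSub l hbr) :=
  LinearMap.ker ((Submodule.dualRestrict (Dc hbr)) ∘ₗ killingForm ℂ (lieSub l hbr))

theorem Oc_central (hgen : Algebra.adjoin ℂ (l : Set (∀ j, Matrix (N j) (N j) ℂ)) = ⊤)
    {x : lieSub l hbr} (hx : x ∈ Oc hbr) (y : ∀ j, Matrix (N j) (N j) ℂ) (hy : y ∈ l) :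
    x.1 * y - y * x.1 = 0 := by
  have h1 : ⁅x, (⟨y, hy⟩ : lieSub l hbr)⁆ ∈ LieAlgebra.radical ℂ (lieSub l hbr) := by
    apply LieAlgebra.killingCompl_top_le_radical ℂ (lieSub l hbr)
    rw [LieIdeal.mem_killingCompl]
    intro z _
    rw [LieModule.traceForm_comm, LieModule.traceForm_apply_lie_apply]
    have h2 := LinearMap.mem_ker.1 hx
    have h3 := LinearMap.congr_fun h2 ⟨⁅(⟨y, hy⟩ : lieSub l hbr), z⁆,
      Submodule.subset_span ⟨_, _, rfl⟩⟩
    exact h3
  funext j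
  obtain ⟨c, hc⟩ := radical_entry hgen h1 j
  exact scalar_zero hc (trace_br (x.1 j) (y j))

/-- **The centre.** -/
theorem center_of (hbr : ∀ x ∈ l, ∀ y ∈ l, x * y - y * x ∈ l)
    (hgen : Algebra.adjoin ℂ (l : Set (∀ j, Matrix (N j) (N j) ℂ)) = ⊤)
    {x : ∀ j, Matrix (N j) (N j) ℂ} (hx : x ∈ l) :
    ∃ e ∈ l, (∀ y ∈ l, e * y - y * e = 0) ∧
      ∀ j, e j = ((x j).trace / Fintype.card (N j)) • (1 : Matrix (N j) (N j) ℂ) := by
  have hdis : Oc hbr ⊓ Dc hbr = ⊥ := by
    rw [eq_bot_iff]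
    rintro y ⟨hy1, hy2⟩
    rw [Submodule.mem_bot]
    apply Subtype.ext
    funext i
    obtain ⟨c, hc⟩ := central_entry hgen (Oc_central hgen hy1) i
    exact scalar_zero hc (trace_Dc hy2 i)
  have hdim := Submodule.finrank_sup_add_finrank_inf_eq (Oc hbr) (Dc hbr)
  rw [hdis, finrank_bot, add_zero] at hdim
  have hrn := LinearMap.finrank_range_add_finrank_ker
    ((Submodule.dualRestrict (Dc hbr)) ∘ₗ killingForm ℂ (lieSub l hbr))
  have hle : finrank ℂ (LinearMap.range
      ((Submodule.dualRestrict (Dc hbr)) ∘ₗ killingForm ℂ (lieSub l hbr))) ≤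
      finrank ℂ (Dc hbr) := by
    refine (Submodule.finrank_le _).trans ?_
    rw [Subspace.dual_finrank_eq]
  have htop : Oc hbr ⊔ Dc hbr = ⊤ := by
    refine Submodule.eq_top_of_finrank_eq (le_antisymm (Submodule.finrank_le _) ?_)
    rw [hdim, ← hrn]
    change _ ≤ finrank ℂ (LinearMap.ker ((Submodule.dualRestrict (Dc hbr)) ∘ₗ
      killingForm ℂ (lieSub l hbr))) + _
    omega
  have hmem : (⟨x, hx⟩ : lieSub l hbr) ∈ Oc hbr ⊔ Dc hbr := by
    rw [htop]
    exact Submodule.mem_top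
  obtain ⟨e, he, b, hb, heb⟩ := Submodule.mem_sup.1 hmem
  have h1 : e.1 + b.1 = x := congrArg Subtype.val heb
  refine ⟨e.1, e.2, Oc_central hgen he, fun j => ?_⟩
  obtain ⟨c', hc'⟩ := central_entry hgen (Oc_central hgen he) j
  have h3 : (e.1 j).trace = (x j).trace := by
    rw [← h1, Pi.add_apply, Matrix.trace_add, trace_Dc hb j, add_zero]
  rw [hc', Matrix.trace_smul, Matrix.trace_one, smul_eq_mul] at h3
  rw [hc', ← h3, mul_div_cancel_right₀ _ (Nat.cast_ne_zero.2 Fintype.card_ne_zero)]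

end Pool.Agent.TH128.OM
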