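import Pool.Agent.TH128.OM.Gb
import Pool.Agent.TH128.KS.Gour

/-!
# The generalized eigenspaces of the adjoint action, block matrices
-/

set_option autoImplicit false
set_option linter.unusedSectionVars false

open Module Matrix

namespace Pool.Agent.TH128.OM

open Pool.Agent.TH128.KS (Blk)

variable {B D : Type} [Fintype B] [DecidableEq B] [Fintype D] [DecidableEq D]

/-- The block matrices. -/
def Bk (deg : B → D) : Submodule ℂ (Matrix B B ℂ) where
  carrier := {z | Blk deg z}
  zero_mem' := fun _ _ _ => rfl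
  add_mem' := by
    intro z w hz hw a b hab
    rw [Matrix.add_apply, hz a b hab, hw a b hab, add_zero]
  smul_mem' := by
    intro c z hz a b hab
    rw [Matrix.smul_apply, hz a b hab, smul_zero]

theorem card_Bk (deg : B → D) : ∑ k, Fintype.card {b // deg b = k} ^ 2 =
    Fintype.card {p : B × B // deg p.1 = deg p.2} := by
  let e : (Σ k, {b // deg b = k} × {b // deg b = k}) ≃ {p : B × B // deg p.1 = deg p.2} :=
    { toFun := fun q => ⟨(q.2.1.1, q.2.2.1), q.2.1.2.trans q.2.2.2.symm⟩
      invFun := fun p => ⟨deg p.1.1, ⟨p.1.1, rfl⟩, ⟨p.1.2, p.2.symm⟩⟩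
      left_inv := by
        rintro ⟨k, ⟨a, rfl⟩, ⟨b, hb⟩⟩
        rfl
      right_inv := fun p => rfl }
  rw [← Fintype.card_congr e, Fintype.card_sigma]
  refine Finset.sum_congr rfl fun k _ => ?_
  rw [Fintype.card_prod, sq]

theorem finrank_Bk (deg : B → D) :
    finrank ℂ (Bk deg) ≤ Fintype.card {p : B × B // deg p.1 = deg p.2} := by
  let F : Bk deg →ₗ[ℂ] ({p : B × B // deg p.1 = deg p.2} → ℂ) :=
    { toFun := fun z p => z.1 p.1.1 p.1.2
      map_add' := fun z w => rfl
      map_smul' := fun c z => rfl }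
  have hF : Function.Injective F := by
    intro z w h
    apply Subtype.ext
    ext a b
    by_cases hab : deg a = deg b
    · exact congrFun h ⟨(a, b), hab⟩
    · rw [z.2 a b hab, w.2 a b hab]
  have h1 := LinearMap.finrank_le_finrank_of_injective hF
  rwa [Module.finrank_fintype_fun_eq_card] at h1

/-- One block. -/
def bl (deg : B → D) (k : D) (z : Matrix B B ℂ) : Matrix {b // deg b = k} {b // deg b = k} ℂ :=
  z.submatrix Subtype.val Subtype.val

theorem bl_mul {deg : B → D} (k : D) {z : Matrix B B ℂ} (hz : Blk deg z) (w : Matrix B B ℂ) :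
    bl deg k (z * w) = bl deg k z * bl deg k w := by
  ext a b
  rw [Matrix.mul_apply]
  change (z * w) a.1 b.1 = ∑ c : {c // deg c = k}, z a.1 c.1 * w c.1 b.1
  rw [Matrix.mul_apply]
  have h1 : ∑ c : {c // deg c = k}, z a.1 c.1 * w c.1 b.1 =
      ∑ c ∈ Finset.univ.filter (fun c => deg c = k), z a.1 c * w c b.1 :=
    (Finset.sum_subtype (Finset.univ.filter fun c => deg c = k) (by simp)
      (fun c => z a.1 c * w c b.1)).symm
  rw [h1]
  refine (Finset.sum_subset (Finset.filter_subset _ _) fun c _ hc => ?_).symm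
  rw [hz a.1 c (by
    intro h
    apply hc
    rw [Finset.mem_filter]
    exact ⟨Finset.mem_univ _, h.symm.trans a.2⟩), zero_mul]

theorem bl_pow {deg : B → D} (k : D) {z : Matrix B B ℂ} (hz : Blk deg z) (m : ℕ) :
    ∀ w : Matrix B B ℂ, Blk deg w →
    bl deg k (((adL z - (1 : ℂ) • 1) ^ m) w) = ((adL (bl deg k z) - (1 : ℂ) • 1) ^ m)
      (bl deg k w) := by
  induction m with
  | zero =>
    intro w _
    rfl
  | succ m ih =>
    intro w hw
    have h1 : (adL z - (1 : ℂ) • 1) w = z * w - w * z - w := by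
      rw [LinearMap.sub_apply, adL_apply, one_smul, Module.End.one_apply]
    have h2 : Blk deg ((adL z - (1 : ℂ) • 1) w) := by
      intro a b hab
      rw [h1, Matrix.sub_apply, Matrix.sub_apply, Pool.Agent.TH128.KS.Blk.mul hz hw a b hab,
        Pool.Agent.TH128.KS.Blk.mul hw hz a b hab, hw a b hab, sub_zero, sub_zero]
    rw [pow_succ, Module.End.mul_apply, ih _ h2, pow_succ, Module.End.mul_apply]
    congr 1
    rw [h1, LinearMap.sub_apply, adL_apply, one_smul, Module.End.one_apply, ← bl_mul k hz w,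
      ← bl_mul k hw z]
    rfl

/-- **The generalized eigenspaces of the adjoint action on block matrices are small.** -/
theorem gen_bound_blk {deg : B → D} {z : Matrix B B ℂ} (hz : Blk deg z) :
    4 * finrank ℂ (Module.End.maxGenEigenspace (adL z) 1 ⊓ Bk deg :
      Submodule ℂ (Matrix B B ℂ)) ≤ Fintype.card {p : B × B // deg p.1 = deg p.2} := by
  let F : (Module.End.maxGenEigenspace (adL z) 1 ⊓ Bk deg : Submodule ℂ (Matrix B B ℂ)) →ₗ[ℂ]
      ∀ k : D, Module.End.maxGenEigenspace (adL (bl deg k z)) 1 :=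
    { toFun := fun w k => ⟨bl deg k w.1, by
        obtain ⟨m, hm⟩ := (Module.End.mem_maxGenEigenspace _ _ _).1 w.2.1
        refine (Module.End.mem_maxGenEigenspace _ _ _).2 ⟨m, ?_⟩
        rw [← bl_pow k hz m w.1 w.2.2, hm]
        rfl⟩
      map_add' := fun w w' => rfl
      map_smul' := fun c w => rfl }
  have hF : Function.Injective F := by
    intro w w' h
    apply Subtype.ext
    ext a b
    by_cases hab : deg a = deg b
    · have h1 := congrArg Subtype.val (congrFun h (deg b))
      exact congrFun (congrFun h1 ⟨a, hab⟩) ⟨b, rfl⟩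
    · rw [w.2.2 a b hab, w'.2.2 a b hab]
  have h1 := LinearMap.finrank_le_finrank_of_injective hF
  rw [Module.finrank_pi_fintype] at h1
  rw [← card_Bk]
  refine (Nat.mul_le_mul_left 4 h1).trans ?_
  rw [Finset.mul_sum]
  exact Finset.sum_le_sum fun k _ => gen_bound (bl deg k z) fun w hw =>
    (Module.End.mem_maxGenEigenspace _ _ _).1 hw

end Pool.Agent.TH128.OM
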