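import Pool.Agent.TH128.OM.Top
import Pool.Agent.TH128.OM.Gk

/-!
# The unipotent part: the dimension
-/

set_option autoImplicit false
set_option linter.unusedSectionVars false

open Module Matrix

namespace Pool.Agent.TH128.OM

open Pool.Agent.TH164.Spin Pool.Agent.TH119.MX Pool.Agent.TH164.A1
open Pool.Agent.TH128.KS (Blk)

variable {J : Type} [Fintype J] [DecidableEq J] {N R : J → Type}
  [∀ j, Fintype (N j)] [∀ j, DecidableEq (N j)] [∀ j, Nonempty (N j)]
  [∀ j, Fintype (R j)] [∀ j, DecidableEq (R j)]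
variable {B D : Type} [Fintype B] [DecidableEq B] [Fintype D] [DecidableEq D]
variable {Λ : Submodule ℂ (Tr N R B)}

/-- The elements which are supported in a set of pieces. -/
def St (N R : J → Type) (T : Finset J) : Submodule ℂ (∀ j, Matrix (N j) (R j) ℂ) where
  carrier := {y | ∀ j, j ∉ T → y j = 0}
  zero_mem' := fun j _ => rfl
  add_mem' := by
    intro y y' h h' j hj
    rw [Pi.add_apply, h j hj, h' j hj, add_zero]
  smul_mem' := by
    intro c y h j hj
    rw [Pi.smul_apply, h j hj, smul_zero]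

theorem le_St (T : Finset J) : ∑ j ∈ T, Fintype.card (N j) * Fintype.card (R j) ≤
    finrank ℂ (St N R T) := by
  let f : (∀ j : T, Matrix (N j) (R j) ℂ) →ₗ[ℂ] St N R T :=
    { toFun := fun y => ⟨fun j => if h : j ∈ T then y ⟨j, h⟩ else 0, fun j hj => dif_neg hj⟩
      map_add' := by
        intro y y'
        apply Subtype.ext
        funext j
        change (if h : j ∈ T then (y + y') ⟨j, h⟩ else 0 : Matrix (N j) (R j) ℂ) =
          (if h : j ∈ T then y ⟨j, h⟩ else 0 : Matrix (N j) (R j) ℂ) +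
            (if h : j ∈ T then y' ⟨j, h⟩ else 0 : Matrix (N j) (R j) ℂ)
        split_ifs with h
        · rfl
        · rw [add_zero]
      map_smul' := by
        intro c y
        apply Subtype.ext
        funext j
        change (if h : j ∈ T then (c • y) ⟨j, h⟩ else 0 : Matrix (N j) (R j) ℂ) =
          c • (if h : j ∈ T then y ⟨j, h⟩ else 0 : Matrix (N j) (R j) ℂ)
        split_ifs with h
        · rfl
        · rw [smul_zero] }
  have hf : Function.Injective f := by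
    intro y y' h
    funext j
    have h1 := congrFun (congrArg Subtype.val h) j.1
    change (if h : j.1 ∈ T then y ⟨j.1, h⟩ else 0 : Matrix (N j.1) (R j.1) ℂ) =
      (if h : j.1 ∈ T then y' ⟨j.1, h⟩ else 0 : Matrix (N j.1) (R j.1) ℂ) at h1
    rw [dif_pos j.2, dif_pos j.2] at h1
    exact h1
  have h1 := LinearMap.finrank_le_finrank_of_injective hf
  rw [Module.finrank_pi_fintype] at h1
  refine le_trans (le_of_eq ?_) h1
  rw [← Finset.sum_coe_sort T]
  refine Finset.sum_congr rfl fun j _ => ?_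
  rw [Module.finrank_matrix, Module.finrank_self, mul_one]

theorem St_le {S : Submodule ℂ (∀ j, Matrix (N j) (R j) ℂ)} (T : Finset J)
    (hS : ∀ (x : ∀ j, Matrix (N j) (N j) ℂ), ∀ y ∈ S, (fun j => x j * y j) ∈ S) :
    finrank ℂ (St N R T ⊓ S : Submodule ℂ (∀ j, Matrix (N j) (R j) ℂ)) ≤
      ∑ j ∈ T, Fintype.card (N j) * finrank ℂ (Rw S j) := by
  let f : (St N R T ⊓ S : Submodule ℂ (∀ j, Matrix (N j) (R j) ℂ)) →ₗ[ℂ]
      ∀ j : T, N j → Rw S j :=
    { toFun := fun y j a => ⟨y.1 j a, Rw_mem hS y.2.2 j a⟩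
      map_add' := fun y y' => rfl
      map_smul' := fun c y => rfl }
  have hf : Function.Injective f := by
    intro y y' h
    apply Subtype.ext
    funext j
    by_cases hj : j ∈ T
    · ext a i
      exact congrFun (congrArg Subtype.val (congrFun (congrFun h ⟨j, hj⟩) a)) i
    · rw [y.2.1 j hj, y'.2.1 j hj]
  have h1 := LinearMap.finrank_le_finrank_of_injective hf
  rw [Module.finrank_pi_fintype] at h1
  refine h1.trans (le_of_eq ?_)
  rw [← Finset.sum_coe_sort T]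
  refine Finset.sum_congr rfl fun j _ => ?_
  rw [Module.finrank_pi_fintype, Finset.sum_const, Finset.card_univ, smul_eq_mul]

theorem dim_gen {T : Finset J} {G : Submodule ℂ (Matrix B B ℂ)}
    (hS : ∀ (x : ∀ j, Matrix (N j) (N j) ℂ), ∀ y ∈ Y0 Λ, (fun j => x j * y j) ∈ Y0 Λ)
    (hG : ∀ y ∈ St N R T, ∃ z ∈ G, (y, z) ∈ Nn Λ) :
    ∑ j ∈ T, Fintype.card (N j) * Fintype.card (R j) ≤
      ∑ j ∈ T, Fintype.card (N j) * finrank ℂ (Rw (Y0 Λ) j) + finrank ℂ G := by
  refine (le_St T).trans ?_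
  refine le_trans ?_ (Nat.add_le_add_right (St_le T hS) _)
  let NT : Submodule ℂ ((∀ j, Matrix (N j) (R j) ℂ) × Matrix B B ℂ) :=
    Nn Λ ⊓ (St N R T).prod G
  let f : NT →ₗ[ℂ] St N R T :=
    { toFun := fun p => ⟨p.1.1, p.2.2.1⟩
      map_add' := fun p q => rfl
      map_smul' := fun c p => rfl }
  have hf : Function.Surjective f := by
    rintro ⟨y, hy⟩
    obtain ⟨z, hz, hyz⟩ := hG y hy
    exact ⟨⟨(y, z), hyz, hy, hz⟩, rfl⟩
  have h1 := LinearMap.finrank_le_finrank_of_surjective hf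
  let g : NT →ₗ[ℂ] G :=
    { toFun := fun p => ⟨p.1.2, p.2.2.2⟩
      map_add' := fun p q => rfl
      map_smul' := fun c p => rfl }
  have h2 := LinearMap.finrank_range_add_finrank_ker g
  have h3 : finrank ℂ (LinearMap.range g) ≤ finrank ℂ G := Submodule.finrank_le _
  let k : LinearMap.ker g →ₗ[ℂ] (St N R T ⊓ Y0 Λ : Submodule ℂ (∀ j, Matrix (N j) (R j) ℂ)) :=
    { toFun := fun p => ⟨p.1.1.1, p.1.2.2.1, by
        have h4 : p.1.1.2 = 0 := congrArg Subtype.val (LinearMap.mem_ker.1 p.2)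
        have h5 : (p.1.1.1, p.1.1.2) ∈ Nn Λ := p.1.2.1
        rw [h4] at h5
        exact h5⟩
      map_add' := fun p q => rfl
      map_smul' := fun c p => rfl }
  have hk : Function.Injective k := by
    intro p q h
    apply Subtype.ext
    apply Subtype.ext
    refine Prod.ext (congrArg Subtype.val h) ?_
    have h4 : p.1.1.2 = 0 := congrArg Subtype.val (LinearMap.mem_ker.1 p.2)
    have h5 : q.1.1.2 = 0 := congrArg Subtype.val (LinearMap.mem_ker.1 q.2)
    rw [h4, h5]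
  have h4 := LinearMap.finrank_le_finrank_of_injective hk
  omega

theorem aeval_add' {M : Type} [AddCommGroup M] [Module ℂ M] (f : Module.End ℂ M)
    (p q : Polynomial ℂ) (z : M) :
    Polynomial.aeval f (p + q) z = Polynomial.aeval f p z + Polynomial.aeval f q z := by
  rw [map_add, LinearMap.add_apply]

theorem aeval_mono' {M : Type} [AddCommGroup M] [Module ℂ M] (f : Module.End ℂ M)
    (n : ℕ) (a : ℂ) (z : M) :
    Polynomial.aeval f (Polynomial.monomial n a) z = a • (f ^ n) z := by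
  rw [Polynomial.aeval_monomial, Algebra.algebraMap_eq_smul_one, smul_mul_assoc, one_mul,
    LinearMap.smul_apply]

theorem poly_mem {P P' : ∀ j, Matrix (N j) (N j) ℂ} {v : ∀ j, Matrix (N j) (R j) ℂ}
    {Q Q' : Matrix B B ℂ} (hG : Gd P P' v Q Q' Λ)
    {e : ∀ j, Matrix (N j) (N j) ℂ} {ye : ∀ j, Matrix (N j) (R j) ℂ}
    {ze : Matrix B B ℂ} (he : (e, ye, ze) ∈ Λ) {y : ∀ j, Matrix (N j) (R j) ℂ}
    (hy : ∀ j, e j * y j = y j) {z : Matrix B B ℂ} (hz : (y, z) ∈ Nn Λ) (q : Polynomial ℂ) :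
    (q.eval 1 • y, Polynomial.aeval (adL ze) q z) ∈ Nn Λ := by
  have hpow : ∀ n : ℕ, (y, ((adL ze) ^ n) z) ∈ Nn Λ := by
    intro n
    induction n with
    | zero => exact hz
    | succ n ih =>
      have h1 := Nn_br hG he ih
      have h2 : (fun j => e j * y j) = y := funext hy
      rw [h2] at h1
      rw [pow_succ', Module.End.mul_apply, adL_apply]
      exact h1
  induction q using Polynomial.induction_on' with
  | add p q hp hq =>
    have h1 := (Nn Λ).add_mem hp hq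
    rw [Prod.mk_add_mk, ← add_smul, ← Polynomial.eval_add, ← aeval_add'] at h1
    exact h1
  | monomial n a =>
    have h1 := (Nn Λ).smul_mem a (hpow n)
    rw [Prod.smul_mk, ← aeval_mono'] at h1
    rw [Polynomial.eval_monomial, one_pow, mul_one]
    exact h1

theorem gen_mem {P P' : ∀ j, Matrix (N j) (N j) ℂ} {v : ∀ j, Matrix (N j) (R j) ℂ}
    {Q Q' : Matrix B B ℂ} (hG : Gd P P' v Q Q' Λ)
    {e : ∀ j, Matrix (N j) (N j) ℂ} {ye : ∀ j, Matrix (N j) (R j) ℂ}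
    {ze : Matrix B B ℂ} (he : (e, ye, ze) ∈ Λ) {y : ∀ j, Matrix (N j) (R j) ℂ}
    (hy : ∀ j, e j * y j = y j) {z : Matrix B B ℂ} (hz : (y, z) ∈ Nn Λ) :
    ∃ z' ∈ Module.End.maxGenEigenspace (adL ze) 1, (y, z') ∈ Nn Λ := by
  have hint : IsIntegral ℂ (adL ze : Module.End ℂ (Matrix B B ℂ)) :=
    Algebra.IsIntegral.isIntegral _
  obtain ⟨q, hq, hq1⟩ := Polynomial.exists_eq_pow_rootMultiplicity_mul_and_not_dvd
    (minpoly ℂ (adL ze : Module.End ℂ (Matrix B B ℂ))) (minpoly.ne_zero hint) 1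
  have hq0 : q.eval 1 ≠ 0 := fun h => hq1 (Polynomial.dvd_iff_isRoot.2 h)
  obtain ⟨m, hm⟩ : ∃ m, m = Polynomial.rootMultiplicity 1
    (minpoly ℂ (adL ze : Module.End ℂ (Matrix B B ℂ))) := ⟨_, rfl⟩
  rw [← hm] at hq
  refine ⟨(q.eval 1)⁻¹ • Polynomial.aeval (adL ze) q z, ?_, ?_⟩
  · refine (Module.End.mem_maxGenEigenspace _ _ _).2 ⟨m, ?_⟩
    have h1 := minpoly.aeval ℂ (adL ze : Module.End ℂ (Matrix B B ℂ))
    rw [hq, map_mul, map_pow, map_sub, Polynomial.aeval_X, Polynomial.aeval_C,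
      Algebra.algebraMap_eq_smul_one] at h1
    have h2 := LinearMap.congr_fun h1 z
    rw [Module.End.mul_apply] at h2
    rw [map_smul, h2, LinearMap.zero_apply, smul_zero]
  · have h1 := (Nn Λ).smul_mem (q.eval 1)⁻¹ (poly_mem hG he hy hz q)
    rw [Prod.smul_mk, smul_smul, inv_mul_cancel₀ hq0, one_smul] at h1
    exact h1

theorem mem_Y1 {y : ∀ j, Matrix (N j) (R j) ℂ} (h : ∀ j, Rw (Y1 Λ) j = ⊤) :
    ∃ z, (y, z) ∈ Nn Λ := by
  have h1 : y ∈ Y1 Λ := mem_of_Rw fun j a => by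
    rw [h j]
    exact Submodule.mem_top
  obtain ⟨⟨y, z⟩, hz, rfl⟩ := h1
  exact ⟨z, hz⟩

theorem gd_blk {P P' : ∀ j, Matrix (N j) (N j) ℂ} {v : ∀ j, Matrix (N j) (R j) ℂ}
    {Q Q' : Matrix B B ℂ} (hG : Gd P P' v Q Q' Λ) {deg : B → D} (hQ : Blk deg Q)
    (hQ' : Blk deg Q') :
    Gd P P' v Q Q' (Λ ⊓ (Bk deg).comap (LinearMap.snd ℂ _ _ ∘ₗ LinearMap.snd ℂ _ _)) where
  br := by
    rintro x x' y y' z z' ⟨h1, h2⟩ ⟨h3, h4⟩
    refine ⟨hG.br h1 h3, ?_⟩
    have h2' : Blk deg z := h2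
    have h4' : Blk deg z' := h4
    change Blk deg (z * z' - z' * z)
    intro a b hab
    rw [Matrix.sub_apply, Pool.Agent.TH128.KS.Blk.mul h2' h4' a b hab,
      Pool.Agent.TH128.KS.Blk.mul h4' h2' a b hab, sub_zero]
  der := by
    rintro δ x y z ⟨h1, h2⟩
    refine ⟨hG.der δ h1, ?_⟩
    have h2' : Blk deg z := h2
    change Blk deg (z.map δ)
    intro a b hab
    rw [Matrix.map_apply, h2' a b hab, map_zero]
  log := by
    intro δ
    refine ⟨hG.log δ, ?_⟩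
    change Blk deg (Q.map δ * Q')
    refine Pool.Agent.TH128.KS.Blk.mul (fun a b hab => ?_) hQ'
    rw [Matrix.map_apply, hQ a b hab, map_zero]

theorem Lm_blk {P P' : ∀ j, Matrix (N j) (N j) ℂ} {v : ∀ j, Matrix (N j) (R j) ℂ}
    {Q Q' : Matrix B B ℂ} {deg : B → D} (hQ : Blk deg Q) (hQ' : Blk deg Q') {p : Tr N R B}
    (hp : p ∈ Lm P P' v Q Q') : Blk deg p.2.2 :=
  (Lm_le (gd_blk (gd_Lm P P' v Q Q') hQ hQ') hp).2

/-- **The dimension, pieces of the same weight.** -/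
theorem dim_T {P P' : ∀ j, Matrix (N j) (N j) ℂ}
    (hP : ∀ j, P j * P' j = 1) (hP' : ∀ j, P' j * P j = 1) {v : ∀ j, Matrix (N j) (R j) ℂ}
    {Q Q' : Matrix B B ℂ} (hG : Gd P P' v Q Q' Λ) (hI : Ind P v)
    {deg : B → D} (hB : ∀ p ∈ Λ, Blk deg p.2.2) {T : Finset J} {t : ℂ}
    (htr : ¬ IsAlgebraic ℚ t)
    (ht : ∀ j ∈ T, ∃ a, IsAlgebraic ℚ a ∧ (P j).det ^ 2 = a * t ^ Fintype.card (N j)) :
    4 * ∑ j ∈ T, Fintype.card (N j) * Fintype.card (R j) ≤
      4 * ∑ j ∈ T, Fintype.card (N j) * finrank ℂ (Rw (Y0 Λ) j) +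
        Fintype.card {p : B × B // deg p.1 = deg p.2} := by
  have hgen := Lx_gen hP hP' hG hI
  have htop := fun j => Y1_top hP hP' hG hI j
  obtain ⟨δ, hδ⟩ := Pool.Agent.TH119.DR.exists_deriv htr
  have ht0 : t ≠ 0 := by
    rintro rfl
    exact htr isAlgebraic_zero
  have hc0 : δ t / (2 * t) ≠ 0 := div_ne_zero hδ (mul_ne_zero two_ne_zero ht0)
  obtain ⟨_, ⟨⟨e, ye, ze⟩, hpe, rfl⟩, -, hej⟩ := Lx_cen hP hP' hG hI δ
    (δ t / (2 * t))⁻¹
  have hej' : ∀ j ∈ T, e j = 1 := by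
    intro j hj
    obtain ⟨a, ha, haj⟩ := ht j hj
    have h1 : e j = _ := hej j
    rw [h1, log_trace (hP j) ha Fintype.card_ne_zero haj δ,
      mul_div_cancel_right₀ _ (Nat.cast_ne_zero.2 Fintype.card_ne_zero), inv_mul_cancel₀ hc0,
      one_smul]
  have h1 := dim_gen (T := T) (G := Module.End.maxGenEigenspace (adL ze) 1 ⊓ Bk deg)
    (Y0_mul hG hgen) (fun y hy => by
      obtain ⟨z, hz⟩ := mem_Y1 (y := y) htop
      obtain ⟨z', hz', hz2⟩ := gen_mem hG hpe (fun j => by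
        by_cases hj : j ∈ T
        · rw [hej' j hj, Matrix.one_mul]
        · rw [hy j hj, Matrix.mul_zero]) hz
      exact ⟨z', ⟨hz', hB _ (mem_Nn.1 hz2)⟩, hz2⟩)
  have hze : Blk deg ze := hB _ hpe
  have h2 := gen_bound_blk hze
  omega

/-- The unipotent elements. -/
theorem unip_mem {H : Set (Matrix (Ix N R B) (Ix N R B) ℂ)} (hH : AlgGrp QA H)
    (hΛ : Λ ≤ Hm H) {y : ∀ j, Matrix (N j) (R j) ℂ}
    (hy : ∀ j a, y j a ∈ Rw (Y0 Λ) j) :
    Pm (1 : ∀ j, Matrix (N j) (N j) ℂ) y (1 : Matrix B B ℂ) ∈ H := by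
  have h1 : y ∈ Y0 Λ := mem_of_Rw hy
  have h2 := hΛ (mem_Y0.1 h1)
  have hsq : Em (0 : ∀ j, Matrix (N j) (N j) ℂ) y (0 : Matrix B B ℂ) *
      Em (0 : ∀ j, Matrix (N j) (N j) ℂ) y (0 : Matrix B B ℂ) = (0 : ℂ) •
      Em (0 : ∀ j, Matrix (N j) (N j) ℂ) y (0 : Matrix B B ℂ) := by
    rw [Em_mul, zero_smul, mul_zero, Matrix.zero_mul]
    have h3 : (fun j => (0 : ∀ j, Matrix (N j) (N j) ℂ) j * y j) = 0 := by
      funext j
      exact Matrix.zero_mul _
    rw [h3, Em_zero]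
  have h3 := pres_of_stab hsq h2 1
  have h4 : 1 + (1 : ℂ) • Em (0 : ∀ j, Matrix (N j) (N j) ℂ) y (0 : Matrix B B ℂ) =
      Pm (1 : ∀ j, Matrix (N j) (N j) ℂ) y (1 : Matrix B B ℂ) := by
    rw [one_smul, ← Pm_one]
    unfold Pm Em
    rw [fromBlocks_add, ← map_add, add_zero, add_zero, add_zero]
    congr 2
    funext j
    rw [Pi.add_apply, fromBlocks_add, Pi.zero_apply, Pi.zero_apply, zero_add, add_zero, add_zero,
      add_zero]
  rw [h4] at h3
  refine hH.mem_of_pres h3 (g' := Pm (1 : ∀ j, Matrix (N j) (N j) ℂ) (-y) (1 : Matrix B B ℂ)) ?_ ?_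
  · rw [Pm_mul, one_mul, one_mul, ← Pm_one]
    congr 1
    funext j
    rw [Pi.one_apply, Matrix.one_mul, Pi.neg_apply, neg_add_cancel, Pi.zero_apply]
  · rw [Pm_mul, one_mul, one_mul, ← Pm_one]
    congr 1
    funext j
    rw [Pi.one_apply, Matrix.one_mul, Pi.neg_apply, add_neg_cancel, Pi.zero_apply]

end Pool.Agent.TH128.OM
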