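import Pool.Agent.TH128.OM.Dim

/-!
# The unipotent part: families
-/

set_option autoImplicit false
set_option linter.unusedSectionVars false

open Module Matrix

namespace Pool.Agent.TH128.OM

open Pool.Agent.TH164.Spin Pool.Agent.TH119.MX Pool.Agent.TH164.A1
open Pool.Agent.TH128.KS (Blk)

section pull

variable {J J' : Type} [Fintype J] [DecidableEq J] [Fintype J'] [DecidableEq J']
  {N R : J → Type}
  [∀ j, Fintype (N j)] [∀ j, DecidableEq (N j)] [∀ j, Nonempty (N j)]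
  [∀ j, Fintype (R j)] [∀ j, DecidableEq (R j)]
variable {B : Type} [Fintype B] [DecidableEq B]

/-- The restriction to a part of the pieces. -/
def rest (B : Type) (N R : J → Type) (f : J' → J) :
    Tr N R B →ₗ[ℂ] Tr (fun j => N (f j)) (fun j => R (f j)) B where
  toFun p := (fun j => p.1 (f j), fun j => p.2.1 (f j), p.2.2)
  map_add' _ _ := rfl
  map_smul' _ _ := rfl

theorem Lm_rest (f : J' → J) {P P' : ∀ j, Matrix (N j) (N j) ℂ}
    {v : ∀ j, Matrix (N j) (R j) ℂ} {Q Q' : Matrix B B ℂ} :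
    Lm P P' v Q Q' ≤ (Lm (fun j => P (f j)) (fun j => P' (f j)) (fun j => v (f j)) Q Q').comap
      (rest B N R f) := by
  have hg := gd_Lm (fun j => P (f j)) (fun j => P' (f j)) (fun j => v (f j)) Q Q'
  refine Lm_le ⟨?_, ?_, ?_⟩
  · intro x x' y y' z z' h h'
    exact hg.br (Submodule.mem_comap.1 h) (Submodule.mem_comap.1 h')
  · intro δ x y z h
    exact hg.der δ (Submodule.mem_comap.1 h)
  · intro δ
    exact hg.log δ

theorem Rw_rest (f : J' → J) (hf : Function.Injective f) {P P' : ∀ j, Matrix (N j) (N j) ℂ}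
    {v : ∀ j, Matrix (N j) (R j) ℂ} {Q Q' : Matrix B B ℂ} (j' : J') :
    Rw (Y0 (Lm P P' v Q Q')) (f j') ≤
      Rw (Y0 (Lm (fun j => P (f j)) (fun j => P' (f j)) (fun j => v (f j)) Q Q')) j' := by
  intro w hw a
  have h1 := Lm_rest f (mem_Y0.1 (hw a))
  have h2 : (fun i => (Pi.single (f j') (rowm a w) : ∀ j, Matrix (N j) (R j) ℂ) (f i)) =
      (Pi.single j' (rowm (N := fun j => N (f j)) (R := fun j => R (f j)) a w) :
        ∀ j, Matrix (N (f j)) (R (f j)) ℂ) := by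
    funext i
    by_cases hij : i = j'
    · subst hij
      rw [Pi.single_eq_same, Pi.single_eq_same]
      rfl
    · rw [Pi.single_eq_of_ne hij, Pi.single_eq_of_ne (fun h => hij (hf h))]
  have h3 : ((0 : ∀ j, Matrix (N (f j)) (N (f j)) ℂ),
      (fun i => (Pi.single (f j') (rowm a w) : ∀ j, Matrix (N j) (R j) ℂ) (f i)),
      (0 : Matrix B B ℂ)) ∈
      Lm (fun j => P (f j)) (fun j => P' (f j)) (fun j => v (f j)) Q Q' :=
    Submodule.mem_comap.1 h1
  rw [h2] at h3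
  exact h3

end pull

section fam

variable {ι : Type} [DecidableEq ι] {N R : ι → Type}
  [∀ i, Fintype (N i)] [∀ i, DecidableEq (N i)] [∀ i, Nonempty (N i)]
  [∀ i, Fintype (R i)] [∀ i, DecidableEq (R i)]
variable {B D : Type} [Fintype B] [DecidableEq B] [Fintype D] [DecidableEq D]

/-- The rows for a finite set of pieces. -/
def WJ (P P' : ∀ i, Matrix (N i) (N i) ℂ) (v : ∀ i, Matrix (N i) (R i) ℂ)
    (Q Q' : Matrix B B ℂ) (J : Finset ι) (j : J) : Submodule ℂ (R j → ℂ) :=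
  Rw (Y0 (Lm (fun j : J => P j) (fun j : J => P' j) (fun j : J => v j) Q Q')) j

variable {P P' : ∀ i, Matrix (N i) (N i) ℂ} {v : ∀ i, Matrix (N i) (R i) ℂ}
  {Q Q' : Matrix B B ℂ}

theorem WJ_mono {J' J : Finset ι} (h : J' ⊆ J) {i : ι} (hi : i ∈ J') :
    WJ P P' v Q Q' J ⟨i, h hi⟩ ≤ WJ P P' v Q Q' J' ⟨i, hi⟩ :=
  Rw_rest (J := J) (J' := J') (N := fun j : J => N j) (R := fun j : J => R j)
    (fun j => ⟨j.1, h j.2⟩) (fun _ _ hab => Subtype.ext (congrArg (fun x : J => x.1) hab)) ⟨i, hi⟩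

/-- For every index there is a smallest space of rows. -/
theorem exists_min (i : ι) : ∃ J : Finset ι, ∃ hi : i ∈ J, ∀ (J' : Finset ι) (h : J ⊆ J'),
    WJ P P' v Q Q' J' ⟨i, h hi⟩ = WJ P P' v Q Q' J ⟨i, hi⟩ := by
  classical
  have hex : ∃ n : ℕ, ∃ J : Finset ι, ∃ hi : i ∈ J, finrank ℂ (WJ P P' v Q Q' J ⟨i, hi⟩) = n :=
    ⟨_, {i}, Finset.mem_singleton_self i, rfl⟩
  obtain ⟨J, hi, hJ⟩ := Nat.find_spec hex
  refine ⟨J, hi, fun J' h => ?_⟩
  refine Submodule.eq_of_le_of_finrank_le (WJ_mono h hi) ?_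
  rw [hJ]
  exact Nat.find_min' hex ⟨J', h hi, rfl⟩

theorem exists_W : ∃ W : ∀ i, Submodule ℂ (R i → ℂ),
    (∀ (J : Finset ι) (j : J), W j ≤ WJ P P' v Q Q' J j) ∧
    ∀ T : Finset ι, ∃ J : Finset ι, ∃ h : T ⊆ J, ∀ i (hi : i ∈ T),
      W i = WJ P P' v Q Q' J ⟨i, h hi⟩ := by
  choose K hK hK2 using exists_min (P := P) (P' := P') (v := v) (Q := Q) (Q' := Q')
  refine ⟨fun i => WJ P P' v Q Q' (K i) ⟨i, hK i⟩, ?_, ?_⟩
  · intro J j
    change WJ P P' v Q Q' (K j) ⟨j, hK j⟩ ≤ _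
    rw [← hK2 j (K j ∪ J) Finset.subset_union_left]
    exact WJ_mono Finset.subset_union_right j.2
  · intro T
    refine ⟨T ∪ T.biUnion K, Finset.subset_union_left, fun i hi => ?_⟩
    exact (hK2 i (T ∪ T.biUnion K) ((Finset.subset_biUnion_of_mem K hi).trans
      Finset.subset_union_right)).symm

/-- **Main theorem.** -/
theorem main (hP : ∀ i, P i * P' i = 1) (hP' : ∀ i, P' i * P i = 1) (hQ : Q * Q' = 1)
    (hQ' : Q' * Q = 1) (hI : ∀ J : Finset ι, Ind (fun j : J => P j) (fun j : J => v j))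
    {deg : B → D} (hQb : Blk deg Q) (hQb' : Blk deg Q') :
    ∃ W : ∀ i, Submodule ℂ (R i → ℂ),
      (∀ i, W i ≤ Submodule.span ℂ {w | w ∈ W i ∧ ∀ k, IsAlgebraic ℚ (w k)}) ∧
      (∀ T : Finset ι, ∑ i ∈ T, Fintype.card (N i) * Fintype.card (R i) ≤
        ∑ i ∈ T, Fintype.card (N i) * finrank ℂ (W i) +
          Fintype.card {p : B × B // deg p.1 = deg p.2}) ∧
      (∀ (T : Finset ι) (t : ℂ), ¬ IsAlgebraic ℚ t → (∀ i ∈ T, ∃ a, IsAlgebraic ℚ a ∧
        (P i).det ^ 2 = a * t ^ Fintype.card (N i)) →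
        4 * ∑ i ∈ T, Fintype.card (N i) * Fintype.card (R i) ≤
        4 * ∑ i ∈ T, Fintype.card (N i) * finrank ℂ (W i) +
          Fintype.card {p : B × B // deg p.1 = deg p.2}) ∧
      ∀ (J : Finset ι) (H : Set (Matrix (Ix (fun j : J => N j) (fun j : J => R j) B)
        (Ix (fun j : J => N j) (fun j : J => R j) B) ℂ)), AlgGrp QA H →
        ∀ A A' : Matrix (Ix (fun j : J => N j) (fun j : J => R j) B)
          (Ix (fun j : J => N j) (fun j : J => R j) B) ℂ, A * A' = 1 →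
        (∀ i j, A' i j ∈ QA) → Pm (fun j : J => P j) (fun j : J => v j) Q * A ∈ H →
        ∀ y : ∀ j : J, Matrix (N j) (R j) ℂ, (∀ (j : J) a, y j a ∈ W j) →
          Pm (1 : ∀ j : J, Matrix (N j) (N j) ℂ) y (1 : Matrix B B ℂ) ∈ H := by
  obtain ⟨W, hW1, hW2⟩ := exists_W (P := P) (P' := P') (v := v) (Q := Q) (Q' := Q')
  have hgd := fun J : Finset ι => gd_Lm (fun j : J => P j) (fun j : J => P' j)
    (fun j : J => v j) Q Q'
  have hblk : ∀ (J : Finset ι), ∀ p ∈ Lm (fun j : J => P j) (fun j : J => P' j)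
      (fun j : J => v j) Q Q', Blk deg p.2.2 := fun J p hp => Lm_blk hQb hQb' hp
  refine ⟨W, fun i => ?_, fun T => ?_, fun T t htr ht => ?_, ?_⟩
  · obtain ⟨J, hJ, hJ2⟩ := hW2 {i}
    rw [hJ2 i (Finset.mem_singleton_self i)]
    exact Rw_alg (fun δ y hy => Y0_der (hgd J) δ hy) _
  · obtain ⟨J, hJ, hJ2⟩ := hW2 T
    have hgen := Lx_gen (fun j : J => hP j) (fun j : J => hP' j) (hgd J) (hI J)
    have htop := fun j : J => Y1_top (fun j : J => hP j) (fun j : J => hP' j) (hgd J) (hI J) j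
    have h1 := dim_gen (T := Finset.univ.filter fun j : J => j.1 ∈ T) (G := Bk deg)
      (Y0_mul (hgd J) hgen) (fun y _ => by
        obtain ⟨z, hz⟩ := mem_Y1 (y := y) htop
        exact ⟨z, hblk J _ (mem_Nn.1 hz), hz⟩)
    have h0 := finrank_Bk deg
    have h2 : ∀ F : ι → ℕ, ∑ j ∈ Finset.univ.filter (fun j : J => j.1 ∈ T), F j =
        ∑ i ∈ T, F i := by
      intro F
      refine Finset.sum_bij (fun j _ => j.1) (fun j hj => (Finset.mem_filter.1 hj).2)
        (fun a _ b _ h => Subtype.ext h) (fun i hi => ⟨⟨i, hJ hi⟩, Finset.mem_filter.2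
          ⟨Finset.mem_univ _, hi⟩, rfl⟩) (fun j _ => rfl)
    have h3 : ∑ j ∈ Finset.univ.filter (fun j : J => j.1 ∈ T), Fintype.card (N j) *
        finrank ℂ (Rw (Y0 (Lm (fun j : J => P j) (fun j : J => P' j) (fun j : J => v j) Q Q')) j) =
        ∑ i ∈ T, Fintype.card (N i) * finrank ℂ (W i) := by
      rw [← h2 fun i => Fintype.card (N i) * finrank ℂ (W i)]
      refine Finset.sum_congr rfl fun j hj => ?_
      rw [hJ2 j (Finset.mem_filter.1 hj).2]
      rfl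
    rw [h3, h2 fun i => Fintype.card (N i) * Fintype.card (R i)] at h1
    omega
  · obtain ⟨J, hJ, hJ2⟩ := hW2 T
    have h1 := dim_T (T := Finset.univ.filter fun j : J => j.1 ∈ T) (t := t)
      (fun j : J => hP j) (fun j : J => hP' j) (hgd J) (hI J) (hblk J) htr
      (fun j hj => ht j.1 (Finset.mem_filter.1 hj).2)
    have h2 : ∀ F : ι → ℕ, ∑ j ∈ Finset.univ.filter (fun j : J => j.1 ∈ T), F j =
        ∑ i ∈ T, F i := by
      intro F
      refine Finset.sum_bij (fun j _ => j.1) (fun j hj => (Finset.mem_filter.1 hj).2)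
        (fun a _ b _ h => Subtype.ext h) (fun i hi => ⟨⟨i, hJ hi⟩, Finset.mem_filter.2
          ⟨Finset.mem_univ _, hi⟩, rfl⟩) (fun j _ => rfl)
    have h3 : ∑ j ∈ Finset.univ.filter (fun j : J => j.1 ∈ T), Fintype.card (N j) *
        finrank ℂ (Rw (Y0 (Lm (fun j : J => P j) (fun j : J => P' j) (fun j : J => v j) Q Q')) j) =
        ∑ i ∈ T, Fintype.card (N i) * finrank ℂ (W i) := by
      rw [← h2 fun i => Fintype.card (N i) * finrank ℂ (W i)]
      refine Finset.sum_congr rfl fun j hj => ?_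
      rw [hJ2 j (Finset.mem_filter.1 hj).2]
      rfl
    rw [h3, h2 fun i => Fintype.card (N i) * Fintype.card (R i)] at h1
    exact h1
  · intro J H hH A A' hA hAa hPA y hy
    exact unip_mem hH (Lm_le (gd_Hm hH (fun j : J => hP j) (fun j : J => hP' j) hQ hQ' hA hAa
      hPA)) (fun j a => hW1 J j (hy j a))

end fam

end Pool.Agent.TH128.OM
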