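import Mathlib

/-!
# The generalized eigenspaces of the adjoint action
-/

set_option autoImplicit false
set_option linter.unusedSectionVars false

open Module Matrix

namespace Pool.Agent.TH128.OM

variable {B : Type} [Fintype B] [DecidableEq B]

/-- The adjoint action. -/
def adL (Z : Matrix B B ℂ) : Matrix B B ℂ →ₗ[ℂ] Matrix B B ℂ :=
  LinearMap.mulLeft ℂ Z - LinearMap.mulRight ℂ Z

theorem adL_apply (Z w : Matrix B B ℂ) : adL Z w = Z * w - w * Z := rfl

theorem shift (Z : Matrix B B ℂ) (l : ℂ) : ∀ (s m n : ℕ), m + n = s → ∀ (w : Matrix B B ℂ)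
    (v : B → ℂ), ((adL Z - (1 : ℂ) • 1) ^ m) w = 0 →
    ((Matrix.toLin' Z - l • 1) ^ n) v = 0 →
    ((Matrix.toLin' Z - (l + 1) • 1) ^ s) (w *ᵥ v) = 0 := by
  intro s
  induction s with
  | zero =>
    intro m n hmn w v hw hv
    obtain ⟨rfl, rfl⟩ : m = 0 ∧ n = 0 := by omega
    rw [pow_zero] at hw ⊢
    have h1 : w = 0 := hw
    rw [h1, Matrix.zero_mulVec]
    rfl
  | succ s ih =>
    intro m n hmn w v hw hv
    rcases Nat.eq_zero_or_pos m with rfl | hm
    · rw [pow_zero] at hw
      have h1 : w = 0 := hw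
      rw [h1, Matrix.zero_mulVec, map_zero]
    rcases Nat.eq_zero_or_pos n with rfl | hn
    · rw [pow_zero] at hv
      have h1 : v = 0 := hv
      rw [h1, Matrix.mulVec_zero, map_zero]
    obtain ⟨m, rfl⟩ : ∃ m', m = m' + 1 := ⟨m - 1, by omega⟩
    obtain ⟨n, rfl⟩ : ∃ n', n = n' + 1 := ⟨n - 1, by omega⟩
    rw [pow_succ, Module.End.mul_apply] at hw hv ⊢
    have e1 : (Matrix.toLin' Z - (l + 1) • (1 : Module.End ℂ (B → ℂ))) (w *ᵥ v) =
        ((adL Z - (1 : ℂ) • 1) w) *ᵥ v + w *ᵥ ((Matrix.toLin' Z - l • 1) v) := by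
      rw [LinearMap.sub_apply, LinearMap.sub_apply, LinearMap.sub_apply, adL_apply,
        LinearMap.smul_apply, LinearMap.smul_apply, LinearMap.smul_apply, Module.End.one_apply,
        Module.End.one_apply, Module.End.one_apply, Matrix.toLin'_apply, Matrix.toLin'_apply,
        Matrix.sub_mulVec, Matrix.sub_mulVec, Matrix.mulVec_sub, Matrix.smul_mulVec,
        Matrix.mulVec_smul, Matrix.mulVec_mulVec, Matrix.mulVec_mulVec]
      module
    rw [e1, map_add, ih m (n + 1) (by omega) _ v hw (by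
      rw [pow_succ, Module.End.mul_apply]
      exact hv), ih (m + 1) n (by omega) w _ (by
      rw [pow_succ, Module.End.mul_apply]
      exact hw) hv, add_zero]

theorem exists_basis (f : Module.End ℂ (B → ℂ)) : ∃ (ι : Type) (_ : Fintype ι)
    (e : Basis ι ℂ (B → ℂ)) (μ : ι → ℂ), (∀ i, e i ∈ f.maxGenEigenspace (μ i)) ∧
    ∀ (l : ℂ), ∀ v ∈ f.maxGenEigenspace l, ∀ i, μ i ≠ l → e.repr v i = 0 := by
  classical
  have hint : DirectSum.IsInternal f.maxGenEigenspace :=
    DirectSum.isInternal_submodule_of_iSupIndep_of_iSup_eq_top f.independent_maxGenEigenspace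
      (Module.End.iSup_maxGenEigenspace_eq_top f)
  let b : ∀ l : ℂ, Basis (Fin (finrank ℂ (f.maxGenEigenspace l))) ℂ (f.maxGenEigenspace l) :=
    fun l => Module.finBasis ℂ (f.maxGenEigenspace l)
  have hfin : Finite (Σ l : ℂ, Fin (finrank ℂ (f.maxGenEigenspace l))) :=
    Module.Finite.finite_basis (hint.collectedBasis b)
  have hft := Fintype.ofFinite (Σ l : ℂ, Fin (finrank ℂ (f.maxGenEigenspace l)))
  refine ⟨_, hft, hint.collectedBasis b, fun i => i.1, fun i => hint.collectedBasis_mem b i, ?_⟩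
  intro l v hv i hi
  exact hint.collectedBasis_repr_of_mem_ne b (Ne.symm hi) hv

theorem card_pairs {ι : Type} [Fintype ι] [DecidableEq ι] (μ : ι → ℂ) :
    4 * Fintype.card {p : ι × ι // μ p.1 = μ p.2 + 1} ≤ Fintype.card ι ^ 2 := by
  classical
  have hs : ∀ k i : ι, μ k = μ i + 1 → (Even ⌊(μ k).re⌋ ↔ ¬ Even ⌊(μ i).re⌋) := by
    intro k i h
    rw [h, Complex.add_re, Complex.one_re, Int.floor_add_one]
    exact Int.even_add_one
  let S : Finset ι := Finset.univ.filter fun k => Even ⌊(μ k).re⌋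
  let S' : Finset ι := Finset.univ.filter fun k => ¬ Even ⌊(μ k).re⌋
  have hcard : S.card + S'.card = Fintype.card ι := by
    rw [← Finset.card_univ]
    exact Finset.card_filter_add_card_filter_not _
  let g : {p : ι × ι // μ p.1 = μ p.2 + 1} → S ×ˢ S' := fun p =>
    if h : Even ⌊(μ p.1.1).re⌋ then
      ⟨(p.1.1, p.1.2), Finset.mem_product.2 ⟨Finset.mem_filter.2 ⟨Finset.mem_univ _, h⟩,
        Finset.mem_filter.2 ⟨Finset.mem_univ _, (hs _ _ p.2).1 h⟩⟩⟩
    else
      ⟨(p.1.2, p.1.1), Finset.mem_product.2 ⟨Finset.mem_filter.2 ⟨Finset.mem_univ _, by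
        by_contra h2
        exact h ((hs _ _ p.2).2 h2)⟩,
        Finset.mem_filter.2 ⟨Finset.mem_univ _, h⟩⟩⟩
  have hg : Function.Injective g := by
    rintro ⟨⟨k, i⟩, hp⟩ ⟨⟨k', i'⟩, hp'⟩ h
    change μ k = μ i + 1 at hp
    change μ k' = μ i' + 1 at hp'
    simp only [g] at h
    split_ifs at h with h1 h2 h2
    · have h3 := congrArg Subtype.val h
      simp only [Prod.mk.injEq] at h3
      exact Subtype.ext (Prod.ext h3.1 h3.2)
    · have h3 := congrArg Subtype.val h
      simp only [Prod.mk.injEq] at h3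
      obtain ⟨rfl, rfl⟩ := h3
      exfalso
      have h4 : (2 : ℂ) = 0 := by linear_combination -hp - hp'
      exact two_ne_zero h4
    · have h3 := congrArg Subtype.val h
      simp only [Prod.mk.injEq] at h3
      obtain ⟨rfl, rfl⟩ := h3
      exfalso
      have h4 : (2 : ℂ) = 0 := by linear_combination -hp - hp'
      exact two_ne_zero h4
    · have h3 := congrArg Subtype.val h
      simp only [Prod.mk.injEq] at h3
      exact Subtype.ext (Prod.ext h3.2 h3.1)
  have h1 := Fintype.card_le_of_injective g hg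
  rw [Fintype.card_coe, Finset.card_product] at h1
  rw [← hcard]
  nlinarith [sq_nonneg ((S.card : ℤ) - S'.card), h1]

/-- **The generalized eigenspaces of the adjoint action are small.** -/
theorem gen_bound (Z : Matrix B B ℂ) {G : Submodule ℂ (Matrix B B ℂ)}
    (hG : ∀ w ∈ G, ∃ m : ℕ, ((adL Z - (1 : ℂ) • 1) ^ m) w = 0) :
    4 * finrank ℂ G ≤ Fintype.card B ^ 2 := by
  classical
  obtain ⟨ι, _, e, μ, he, hrep⟩ := exists_basis (Matrix.toLin' Z)
  have hcard : Fintype.card ι = Fintype.card B := by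
    rw [← Module.finrank_eq_card_basis e, Module.finrank_fintype_fun_eq_card]
  let F : G →ₗ[ℂ] ({p : ι × ι // μ p.1 = μ p.2 + 1} → ℂ) :=
    { toFun := fun w p => e.repr (w.1 *ᵥ e p.1.2) p.1.1
      map_add' := by
        intro w w'
        funext p
        change e.repr ((w.1 + w'.1) *ᵥ e p.1.2) p.1.1 = _
        rw [Matrix.add_mulVec, map_add]
        rfl
      map_smul' := by
        intro c w
        funext p
        change e.repr ((c • w.1) *ᵥ e p.1.2) p.1.1 = _
        rw [Matrix.smul_mulVec, map_smul]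
        rfl }
  have hF : Function.Injective F := by
    rw [← LinearMap.ker_eq_bot, LinearMap.ker_eq_bot']
    intro w hw
    apply Subtype.ext
    have h1 : ∀ i, w.1 *ᵥ e i = 0 := by
      intro i
      have h2 : e.repr (w.1 *ᵥ e i) = 0 := by
        ext k
        rw [Finsupp.zero_apply]
        by_cases hk : μ k = μ i + 1
        · exact congrFun hw ⟨(k, i), hk⟩
        · refine hrep (μ i + 1) _ ?_ k hk
          obtain ⟨m, hm⟩ := hG w.1 w.2
          obtain ⟨n, hn⟩ := (Module.End.mem_maxGenEigenspace _ _ _).1 (he i)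
          exact (Module.End.mem_maxGenEigenspace _ _ _).2
            ⟨m + n, shift Z (μ i) (m + n) m n rfl w.1 (e i) hm hn⟩
      exact (LinearEquiv.map_eq_zero_iff _).1 h2
    have h3 : Matrix.toLin' w.1 = 0 := by
      refine e.ext fun i => ?_
      rw [Matrix.toLin'_apply, h1, LinearMap.zero_apply]
    exact (LinearEquiv.map_eq_zero_iff _).1 h3
  have h1 := LinearMap.finrank_le_finrank_of_injective hF
  rw [Module.finrank_fintype_fun_eq_card] at h1
  have h2 := card_pairs μ
  rw [hcard] at h2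
  omega

end Pool.Agent.TH128.OM
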