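import Pool.Agent.TH128.OM.Obj

/-!
# The unipotent part: generation, and the rows
-/

set_option autoImplicit false
set_option linter.unusedSectionVars false

open Module Matrix

namespace Pool.Agent.TH128.OM

open Pool.Agent.TH164.Spin Pool.Agent.TH119.MX Pool.Agent.TH164.A1

variable {J : Type} [Fintype J] [DecidableEq J] {N R : J → Type}
  [∀ j, Fintype (N j)] [∀ j, DecidableEq (N j)] [∀ j, Nonempty (N j)]
  [∀ j, Fintype (R j)] [∀ j, DecidableEq (R j)]
variable {B : Type} [Fintype B] [DecidableEq B]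
variable {Λ : Submodule ℂ (Tr N R B)}

/-- The numbers `1`, `P`, `v` are linearly independent over the algebraic numbers. -/
def Ind (P : ∀ j, Matrix (N j) (N j) ℂ) (v : ∀ j, Matrix (N j) (R j) ℂ) : Prop :=
  ∀ (c : ℂ) (C : ∀ j, Matrix (N j) (N j) ℂ) (D : ∀ j, Matrix (N j) (R j) ℂ),
    IsAlgebraic ℚ c → (∀ j a b, IsAlgebraic ℚ (C j a b)) → (∀ j a i, IsAlgebraic ℚ (D j a i)) →
    c + ∑ j, ∑ a, ∑ b, C j a b * P j a b + ∑ j, ∑ a, ∑ i, D j a i * v j a i = 0 → C = 0 ∧ D = 0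

/-- The first components. -/
def Lx (Λ : Submodule ℂ (Tr N R B)) : Submodule ℂ (∀ j, Matrix (N j) (N j) ℂ) :=
  Λ.map (LinearMap.fst ℂ _ _)

theorem Lx_br {P P' : ∀ j, Matrix (N j) (N j) ℂ} {v : ∀ j, Matrix (N j) (R j) ℂ}
    {Q Q' : Matrix B B ℂ} (hG : Gd P P' v Q Q' Λ)
    {x y : ∀ j, Matrix (N j) (N j) ℂ} (hx : x ∈ Lx Λ) (hy : y ∈ Lx Λ) :
    x * y - y * x ∈ Lx Λ := by
  obtain ⟨⟨x, y₁, z₁⟩, hp, rfl⟩ := hx
  obtain ⟨⟨x', y₂, z₂⟩, hq, rfl⟩ := hy
  exact ⟨_, hG.br hp hq, rfl⟩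

theorem Lx_gen {P P' : ∀ j, Matrix (N j) (N j) ℂ}
    (hP : ∀ j, P j * P' j = 1) (hP' : ∀ j, P' j * P j = 1) {v : ∀ j, Matrix (N j) (R j) ℂ}
    {Q Q' : Matrix B B ℂ} (hG : Gd P P' v Q Q' Λ) (hI : Ind P v) :
    Algebra.adjoin ℂ (Lx Λ : Set (∀ j, Matrix (N j) (N j) ℂ)) = ⊤ := by
  have hPP : P * P' = 1 := funext fun j => hP j
  have hPP' : P' * P = 1 := funext fun j => hP' j
  have hge := adjoin_ge (bd (N := N)).range ((Lx Λ).map (bd (N := N)).toLinearMap)
    (P := bd P) (P' := bd P') (A := 1) (A' := 1) (by rw [← map_mul, hPP, map_one])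
    (by rw [← map_mul, hPP', map_one]) (by
      rintro δ _ ⟨x, rfl⟩
      exact ⟨_, (bd_map δ x).symm⟩) (by
      rintro δ _ ⟨_, ⟨⟨x, y, z⟩, hp, rfl⟩, rfl⟩
      exact ⟨_, ⟨_, hG.der δ hp, rfl⟩, (bd_map δ x).symm⟩) (by
      rintro _ ⟨x, hx, rfl⟩
      exact ⟨x, rfl⟩) (fun δ => ⟨_, ⟨_, hG.log δ, rfl⟩, by
      change bd (fun j => (P j).map δ * P' j) = _
      rw [bd_map, ← map_mul]
      rfl⟩) (Matrix.one_mul 1) (by
      intro i j
      rw [Matrix.one_apply]
      split_ifs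
      · exact isAlgebraic_one
      · exact isAlgebraic_zero) (by
      rw [Matrix.mul_one]
      exact ⟨P, rfl⟩) (by
      rintro W hWa h1 _ ⟨x, rfl⟩
      rw [Matrix.mul_one]
      have h2 := hI 0 (fun j => Matrix.of fun a b => W ⟨j, a⟩ ⟨j, b⟩) 0 isAlgebraic_zero
        (fun j a b => hWa _ _) (fun j a i => isAlgebraic_zero) (by
          rw [bd_sum (fun q => W q.1 q.2) P] at h1
          simp only [Pi.zero_apply, Matrix.zero_apply, zero_mul, Finset.sum_const_zero, zero_add,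
            add_zero]
          exact h1)
      change ∑ p : (Σ j, N j) × (Σ j, N j), W p.1 p.2 * bd x p.1 p.2 = 0
      rw [bd_sum (fun q => W q.1 q.2) x]
      refine Finset.sum_eq_zero fun j _ => Finset.sum_eq_zero fun a _ =>
        Finset.sum_eq_zero fun b _ => ?_
      have h3 : W ⟨j, a⟩ ⟨j, b⟩ = 0 := congrFun (congrFun (congrFun h2.1 j) a) b
      change W ⟨j, a⟩ ⟨j, b⟩ * _ = 0
      rw [h3, zero_mul])
  rw [eq_top_iff]
  intro x _
  have h1 : Algebra.adjoin ℂ (((Lx Λ).map (bd (N := N)).toLinearMap :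
      Submodule ℂ _) : Set (Matrix (Σ j, N j) (Σ j, N j) ℂ)) ≤
      (Algebra.adjoin ℂ (Lx Λ : Set (∀ j, Matrix (N j) (N j) ℂ))).map bd := by
    refine Algebra.adjoin_le ?_
    rintro _ ⟨y, hy, rfl⟩
    exact ⟨y, Algebra.subset_adjoin hy, rfl⟩
  obtain ⟨z, hz, hzx⟩ := h1 (hge ⟨x, rfl⟩)
  have h2 : z = x := bd_inj hzx
  rw [← h2]
  exact hz

theorem log_trace {N₁ : Type} [Fintype N₁] [DecidableEq N₁] {P P' : Matrix N₁ N₁ ℂ}
    (hP : P * P' = 1) {a t : ℂ} (ha : IsAlgebraic ℚ a) {n : ℕ} (hn : n ≠ 0)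
    (hdet : P.det ^ 2 = a * t ^ n) (δ : Derivation ℚ ℂ ℂ) :
    (P.map δ * P').trace = δ t / (2 * t) * n := by
  have hP0 : P.det ≠ 0 := by
    intro h
    have h1 := congrArg Matrix.det hP
    rw [Matrix.det_mul, h, zero_mul, Matrix.det_one] at h1
    exact zero_ne_one h1
  have h0 : a * t ^ n ≠ 0 := by
    rw [← hdet]
    exact pow_ne_zero 2 hP0
  have ht : t ≠ 0 := by
    rintro rfl
    rw [zero_pow hn, mul_zero] at h0
    exact h0 rfl
  obtain ⟨m, rfl⟩ := Nat.exists_eq_succ_of_ne_zero hn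
  have e1 : δ (P.det ^ 2) = 2 * P.det * δ P.det := by
    rw [sq, Derivation.leibniz, smul_eq_mul]
    ring
  have e2 : δ (a * t ^ (m + 1)) = a * ((m + 1) * t ^ m * δ t) := by
    rw [Derivation.leibniz, Pool.Agent.TH119.DR.deriv_alg δ ha, smul_zero, add_zero,
      Derivation.leibniz_pow, smul_eq_mul, Nat.add_sub_cancel, nsmul_eq_mul, smul_eq_mul]
    push_cast
    ring
  have e3 := congrArg δ hdet
  rw [Nat.succ_eq_add_one, e1, e2, der_det' δ hP] at e3
  have e4 : (2 * t) * (P.det ^ 2 * (P.map δ * P').trace) = P.det ^ 2 * ((m + 1) * δ t) := by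
    calc (2 * t) * (P.det ^ 2 * (P.map δ * P').trace)
        = t * (2 * P.det * (P.det * (P.map δ * P').trace)) := by ring
      _ = a * t ^ (m + 1) * ((m + 1) * δ t) := by
        rw [e3]
        ring
      _ = _ := by
        rw [← Nat.succ_eq_add_one, ← hdet]
  have e5 : (2 * t) * (P.map δ * P').trace = (m + 1) * δ t := by
    apply mul_left_cancel₀ (pow_ne_zero 2 hP0)
    rw [← e4]
    ring
  rw [div_mul_eq_mul_div, eq_div_iff (mul_ne_zero two_ne_zero ht), mul_comm, e5]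
  push_cast
  ring

theorem Lx_cen {P P' : ∀ j, Matrix (N j) (N j) ℂ}
    (hP : ∀ j, P j * P' j = 1) (hP' : ∀ j, P' j * P j = 1) {v : ∀ j, Matrix (N j) (R j) ℂ}
    {Q Q' : Matrix B B ℂ} (hG : Gd P P' v Q Q' Λ) (hI : Ind P v)
    (δ : Derivation ℚ ℂ ℂ) (c : ℂ) :
    ∃ e ∈ Lx Λ, (∀ y ∈ Lx Λ, y * e - e * y = 0) ∧ ∀ j, e j =
      (c * (((P j).map δ * P' j).trace / Fintype.card (N j))) • (1 : Matrix (N j) (N j) ℂ) := by
  obtain ⟨e, he, he1, he2⟩ := center_of (fun x hx y hy => Lx_br hG hx hy)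
    (Lx_gen hP hP' hG hI)
    (x := fun j => (P j).map δ * P' j) ⟨_, hG.log δ, rfl⟩
  refine ⟨c • e, (Lx Λ).smul_mem c he, fun y hy => ?_, fun j => ?_⟩
  · rw [mul_smul_comm, smul_mul_assoc, ← smul_sub, ← neg_sub, he1 y hy, neg_zero, smul_zero]
  · rw [Pi.smul_apply, he2, smul_smul]

section rows

variable {S : Submodule ℂ (∀ j, Matrix (N j) (R j) ℂ)}

/-- The matrix with one nonzero row. -/
def rowm {j : J} (a : N j) (w : R j → ℂ) : Matrix (N j) (R j) ℂ :=
  Matrix.of fun b i => if b = a then w i else 0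

/-- The rows. -/
def Rw (S : Submodule ℂ (∀ j, Matrix (N j) (R j) ℂ)) (j : J) : Submodule ℂ (R j → ℂ) where
  carrier := {w | ∀ a : N j, (Pi.single j (rowm a w) : ∀ j, Matrix (N j) (R j) ℂ) ∈ S}
  zero_mem' := by
    intro a
    have h1 : rowm a (0 : R j → ℂ) = 0 := by
      ext b i
      simp [rowm]
    rw [h1, Pi.single_zero]
    exact S.zero_mem
  add_mem' := by
    intro w w' h h' a
    have h1 : rowm a (w + w') = rowm a w + rowm a w' := by
      ext b i
      simp only [rowm, Matrix.of_apply, Matrix.add_apply, Pi.add_apply]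
      split_ifs
      · rfl
      · rw [add_zero]
    rw [h1, Pi.single_add]
    exact S.add_mem (h a) (h' a)
  smul_mem' := by
    intro c w h a
    have h1 : rowm a (c • w) = c • rowm a w := by
      ext b i
      simp only [rowm, Matrix.of_apply, Matrix.smul_apply, Pi.smul_apply, smul_eq_mul]
      split_ifs
      · rfl
      · rw [mul_zero]
    rw [h1, Pi.single_smul]
    exact S.smul_mem c (h a)

theorem Rw_mem (hS : ∀ (x : ∀ j, Matrix (N j) (N j) ℂ), ∀ y ∈ S, (fun j => x j * y j) ∈ S)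
    {y : ∀ j, Matrix (N j) (R j) ℂ} (hy : y ∈ S) (j : J) (a : N j) : y j a ∈ Rw S j := by
  intro a'
  have h1 := hS (Pi.single j (Matrix.single a' a 1)) y hy
  have h2 : (fun i => (Pi.single j (Matrix.single a' a 1) : ∀ j, Matrix (N j) (N j) ℂ) i * y i) =
      Pi.single j (rowm a' (y j a)) := by
    funext i
    by_cases hij : i = j
    · subst hij
      rw [Pi.single_eq_same, Pi.single_eq_same]
      ext b k
      rw [Matrix.mul_apply, Finset.sum_eq_single a]
      · rw [rowm, Matrix.of_apply, Matrix.single_apply]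
        by_cases hb : b = a'
        · rw [if_pos hb, if_pos ⟨hb.symm, rfl⟩, one_mul]
        · rw [if_neg hb, if_neg (fun h => hb h.1.symm), zero_mul]
      · intro c _ hc
        rw [Matrix.single_apply, if_neg (fun h => hc h.2.symm), zero_mul]
      · intro h
        exact absurd (Finset.mem_univ a) h
    · rw [Pi.single_eq_of_ne hij, Pi.single_eq_of_ne hij, Matrix.zero_mul]
  rw [h2] at h1
  exact h1

theorem mem_of_Rw {y : ∀ j, Matrix (N j) (R j) ℂ} (h : ∀ j a, y j a ∈ Rw S j) : y ∈ S := by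
  have h1 : y = ∑ j, ∑ a, (Pi.single j (rowm a (y j a)) : ∀ j, Matrix (N j) (R j) ℂ) := by
    funext i
    rw [Finset.sum_apply, Finset.sum_eq_single i]
    · rw [Finset.sum_apply]
      ext b k
      rw [Matrix.sum_apply, Finset.sum_eq_single b]
      · rw [Pi.single_eq_same, rowm, Matrix.of_apply, if_pos rfl]
      · intro c _ hc
        rw [Pi.single_eq_same, rowm, Matrix.of_apply, if_neg (Ne.symm hc)]
      · intro h
        exact absurd (Finset.mem_univ b) h
    · intro j _ hj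
      rw [Finset.sum_apply]
      exact Finset.sum_eq_zero fun a _ => Pi.single_eq_of_ne (Ne.symm hj) _
    · intro h
      exact absurd (Finset.mem_univ i) h
  rw [h1]
  exact S.sum_mem fun j _ => S.sum_mem fun a _ => h j a a

theorem Rw_alg (hδ : ∀ δ : Derivation ℚ ℂ ℂ, ∀ y ∈ S, (fun j => (y j).map δ) ∈ S) (j : J) :
    Rw S j ≤ Submodule.span ℂ {w | w ∈ Rw S j ∧ ∀ i, IsAlgebraic ℚ (w i)} := by
  refine exists_rat' _ fun δ w hw a => ?_
  have h1 := hδ δ _ (hw a)
  have h2 : (fun i => ((Pi.single j (rowm a w) : ∀ j, Matrix (N j) (R j) ℂ) i).map δ) =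
      Pi.single j (rowm a fun i => δ (w i)) := by
    funext i
    by_cases hij : i = j
    · subst hij
      rw [Pi.single_eq_same, Pi.single_eq_same]
      ext b k
      rw [Matrix.map_apply, rowm, rowm, Matrix.of_apply, Matrix.of_apply]
      split_ifs
      · rfl
      · exact map_zero δ
    · rw [Pi.single_eq_of_ne hij, Pi.single_eq_of_ne hij, map_zero']
  rw [h2] at h1
  exact h1

theorem finrank_le_Rw (hS : ∀ (x : ∀ j, Matrix (N j) (N j) ℂ), ∀ y ∈ S,
    (fun j => x j * y j) ∈ S) :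
    finrank ℂ S ≤ ∑ j, Fintype.card (N j) * finrank ℂ (Rw S j) := by
  let f : S →ₗ[ℂ] ∀ j, N j → Rw S j :=
    { toFun := fun y j a => ⟨y.1 j a, Rw_mem hS y.2 j a⟩
      map_add' := fun y y' => rfl
      map_smul' := fun c y => rfl }
  have hf : Function.Injective f := by
    intro y y' h
    apply Subtype.ext
    funext j
    ext a i
    exact congrFun (congrArg Subtype.val (congrFun (congrFun h j) a)) i
  have h1 := LinearMap.finrank_le_finrank_of_injective hf
  rw [Module.finrank_pi_fintype] at h1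
  refine h1.trans (le_of_eq (Finset.sum_congr rfl fun j _ => ?_))
  rw [Module.finrank_pi_fintype, Finset.sum_const, Finset.card_univ, smul_eq_mul]

end rows

end Pool.Agent.TH128.OM
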