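import Pool.Agent.TH128.OM.Dim

/-!
# The unipotent part: infinite families of extensions
-/

set_option autoImplicit false
set_option linter.unusedSectionVars false

open Module Matrix

namespace Pool.Agent.TH128.OM

open Pool.Agent.TH164.Spin Pool.Agent.TH119.MX Pool.Agent.TH164.A1
open Pool.Agent.TH128.KS (Blk)

section pull

variable {J J' : Type} [Fintype J] [DecidableEq J] [Fintype J'] [DecidableEq J']
  {N R : J → Type} {R' : J' → Type}
  [∀ j, Fintype (N j)] [∀ j, DecidableEq (N j)] [∀ j, Nonempty (N j)]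
  [∀ j, Fintype (R j)] [∀ j, DecidableEq (R j)] [∀ j, Fintype (R' j)] [∀ j, DecidableEq (R' j)]
variable {B : Type} [Fintype B] [DecidableEq B]

/-- The restriction to a part of the pieces and of the columns. -/
def restC (B : Type) (N R : J → Type) (R' : J' → Type) (f : J' → J) (g : ∀ j, R' j → R (f j)) :
    Tr N R B →ₗ[ℂ] Tr (fun j => N (f j)) R' B where
  toFun p := (fun j => p.1 (f j), fun j => (p.2.1 (f j)).submatrix id (g j), p.2.2)
  map_add' _ _ := rfl
  map_smul' _ _ := rfl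

theorem Lm_restC (f : J' → J) (g : ∀ j, R' j → R (f j)) {P P' : ∀ j, Matrix (N j) (N j) ℂ}
    {v : ∀ j, Matrix (N j) (R j) ℂ} {Q Q' : Matrix B B ℂ} :
    Lm P P' v Q Q' ≤ (Lm (fun j => P (f j)) (fun j => P' (f j))
      (fun j => (v (f j)).submatrix id (g j)) Q Q').comap (restC B N R R' f g) := by
  have hg := gd_Lm (fun j => P (f j)) (fun j => P' (f j))
    (fun j => (v (f j)).submatrix id (g j)) Q Q'
  refine Lm_le ⟨?_, ?_, ?_⟩
  · intro x x' y y' z z' h h'
    exact hg.br (Submodule.mem_comap.1 h) (Submodule.mem_comap.1 h')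
  · intro δ x y z h
    exact hg.der δ (Submodule.mem_comap.1 h)
  · intro δ
    exact hg.log δ

theorem Rw_restC (f : J' → J) (hf : Function.Injective f) (g : ∀ j, R' j → R (f j))
    {P P' : ∀ j, Matrix (N j) (N j) ℂ}
    {v : ∀ j, Matrix (N j) (R j) ℂ} {Q Q' : Matrix B B ℂ} (j' : J') {w : R (f j') → ℂ}
    (hw : w ∈ Rw (Y0 (Lm P P' v Q Q')) (f j')) :
    (fun k => w (g j' k)) ∈ Rw (Y0 (Lm (fun j => P (f j)) (fun j => P' (f j))
      (fun j => (v (f j)).submatrix id (g j)) Q Q')) j' := by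
  intro a
  have h1 := Lm_restC f g (mem_Y0.1 (hw a))
  have h2 : (fun i => ((Pi.single (f j') (rowm a w) :
      ∀ j, Matrix (N j) (R j) ℂ) (f i)).submatrix id (g i)) =
      (Pi.single j' (rowm (N := fun j => N (f j)) (R := R') a (fun k => w (g j' k))) :
        ∀ j, Matrix (N (f j)) (R' j) ℂ) := by
    funext i
    by_cases hij : i = j'
    · subst hij
      rw [Pi.single_eq_same, Pi.single_eq_same]
      rfl
    · rw [Pi.single_eq_of_ne hij, Pi.single_eq_of_ne (fun h => hij (hf h))]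
      rfl
  have h3 : ((0 : ∀ j, Matrix (N (f j)) (N (f j)) ℂ),
      (fun i => ((Pi.single (f j') (rowm a w) : ∀ j, Matrix (N j) (R j) ℂ) (f i)).submatrix
        id (g i)), (0 : Matrix B B ℂ)) ∈
      Lm (fun j => P (f j)) (fun j => P' (f j))
        (fun j => (v (f j)).submatrix id (g j)) Q Q' :=
    Submodule.mem_comap.1 h1
  rw [h2] at h3
  exact h3

end pull

section ann

variable {K : Type} [Fintype K] [DecidableEq K]

/-- The annihilator. -/
def Ann (W : Submodule ℂ (K → ℂ)) : Submodule ℂ (K → ℂ) where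
  carrier := {x | ∀ w ∈ W, x ⬝ᵥ w = 0}
  zero_mem' := fun w _ => zero_dotProduct w
  add_mem' := fun {a b} ha hb w hw => by rw [add_dotProduct, ha w hw, hb w hw, add_zero]
  smul_mem' := fun c a ha w hw => by rw [smul_dotProduct, ha w hw, smul_zero]

theorem Ann_rat {W : Submodule ℂ (K → ℂ)}
    (hW : ∀ δ : Derivation ℚ ℂ ℂ, ∀ w ∈ W, (fun k => δ (w k)) ∈ W) :
    Ann W ≤ Submodule.span ℂ {x | x ∈ Ann W ∧ ∀ k, IsAlgebraic ℚ (x k)} := by
  refine exists_rat' _ fun δ x hx w hw => ?_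
  have h1 := congrArg δ (hx w hw)
  rw [dotProduct, map_sum, map_zero] at h1
  have h2 : ∑ k, δ (x k * w k) = (fun k => δ (x k)) ⬝ᵥ w + x ⬝ᵥ fun k => δ (w k) := by
    rw [dotProduct, dotProduct, ← Finset.sum_add_distrib]
    refine Finset.sum_congr rfl fun k _ => ?_
    rw [Derivation.leibniz, smul_eq_mul, smul_eq_mul]
    ring
  rw [h2, hx _ (hW δ w hw), add_zero] at h1
  exact h1

theorem mem_of_Ann {W : Submodule ℂ (K → ℂ)} {w : K → ℂ} (h : ∀ x ∈ Ann W, x ⬝ᵥ w = 0) :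
    w ∈ W := by
  by_contra hw
  obtain ⟨f, hf0, hf⟩ := Submodule.exists_le_ker_of_notMem hw
  have hform : ∀ u : K → ℂ, (fun k => f (Pi.single k 1)) ⬝ᵥ u = f u := by
    intro u
    have h1 : u = ∑ k, u k • (Pi.single k 1 : K → ℂ) := by
      funext i
      rw [Finset.sum_apply, Finset.sum_eq_single i]
      · simp
      · intro b _ hb
        simp [Pi.single_eq_of_ne (Ne.symm hb)]
      · intro h
        exact absurd (Finset.mem_univ _) h
    conv_rhs => rw [h1]
    rw [map_sum, dotProduct]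
    exact Finset.sum_congr rfl fun k _ => by rw [map_smul, smul_eq_mul, mul_comm]
  apply hf0
  rw [← hform]
  refine h _ fun u hu => ?_
  rw [hform]
  exact LinearMap.mem_ker.1 (hf hu)

theorem finrank_Ann (W : Submodule ℂ (K → ℂ)) :
    finrank ℂ (Ann W) ≤ finrank ℂ ((K → ℂ) ⧸ W) := by
  let f : Ann W →ₗ[ℂ] Module.Dual ℂ ((K → ℂ) ⧸ W) :=
    { toFun := fun x => W.liftQ (LinearMap.toSpanSingleton ℂ ℂ 1 ∘ₗ
        { toFun := fun w => x.1 ⬝ᵥ w
          map_add' := fun a b => dotProduct_add _ _ _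
          map_smul' := fun c a => dotProduct_smul _ _ _ }) (by
        intro w hw
        rw [LinearMap.mem_ker, LinearMap.comp_apply]
        change LinearMap.toSpanSingleton ℂ ℂ 1 (x.1 ⬝ᵥ w) = 0
        rw [x.2 w hw, map_zero])
      map_add' := fun x y => by
        refine LinearMap.ext fun u => ?_
        obtain ⟨w, rfl⟩ := Submodule.mkQ_surjective W u
        change LinearMap.toSpanSingleton ℂ ℂ 1 ((x.1 + y.1) ⬝ᵥ w) =
          LinearMap.toSpanSingleton ℂ ℂ 1 (x.1 ⬝ᵥ w) + LinearMap.toSpanSingleton ℂ ℂ 1 (y.1 ⬝ᵥ w)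
        rw [add_dotProduct, map_add]
      map_smul' := fun c x => by
        refine LinearMap.ext fun u => ?_
        obtain ⟨w, rfl⟩ := Submodule.mkQ_surjective W u
        change LinearMap.toSpanSingleton ℂ ℂ 1 ((c • x.1) ⬝ᵥ w) =
          c • LinearMap.toSpanSingleton ℂ ℂ 1 (x.1 ⬝ᵥ w)
        rw [smul_dotProduct, map_smul] }
  have hf : Function.Injective f := by
    rw [← LinearMap.ker_eq_bot, LinearMap.ker_eq_bot']
    intro x hx
    apply Subtype.ext
    funext k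
    have h1 : LinearMap.toSpanSingleton ℂ ℂ 1 (x.1 ⬝ᵥ (Pi.single k 1 : K → ℂ)) = 0 :=
      LinearMap.congr_fun hx (W.mkQ (Pi.single k 1))
    rw [dotProduct_single, mul_one, LinearMap.toSpanSingleton_apply, smul_eq_mul, mul_one] at h1
    exact h1
  have h1 := LinearMap.finrank_le_finrank_of_injective hf
  rwa [Subspace.dual_finrank_eq] at h1

end ann

section sub

variable {A : Type} [DecidableEq A]

/-- The restriction to a finite set. -/
def rs (S : Finset A) (x : A →₀ ℂ) : S → ℂ := fun k => x k.1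

/-- The extension by zero. -/
noncomputable def emb (S : Finset A) : (S → ℂ) →ₗ[ℂ] (A →₀ ℂ) where
  toFun r := Finsupp.onFinset S (fun k => if h : k ∈ S then r ⟨k, h⟩ else 0) (fun k hk => by
    by_contra h
    rw [dif_neg h] at hk
    exact hk rfl)
  map_add' r r' := by
    ext k
    rw [Finsupp.add_apply, Finsupp.onFinset_apply, Finsupp.onFinset_apply, Finsupp.onFinset_apply]
    split_ifs
    · rfl
    · rw [add_zero]
  map_smul' c r := by
    ext k
    rw [Finsupp.smul_apply, Finsupp.onFinset_apply, Finsupp.onFinset_apply]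
    split_ifs
    · rfl
    · rw [smul_zero]

theorem emb_apply (S : Finset A) (r : S → ℂ) (k : A) :
    emb S r k = if h : k ∈ S then r ⟨k, h⟩ else 0 := rfl

theorem rs_emb (S : Finset A) (r : S → ℂ) : rs S (emb S r) = r := by
  funext k
  rw [rs, emb_apply, dif_pos k.2]

theorem rs_dot {S' S : Finset A} (h : S' ⊆ S) {x : A →₀ ℂ} (hx : ∀ k, k ∉ S' → x k = 0)
    (w : S → ℂ) : rs S x ⬝ᵥ w = rs S' x ⬝ᵥ fun k => w ⟨k.1, h k.2⟩ := by
  have h1 : ∀ (T : Finset A) (hT : T ⊆ S), rs T x ⬝ᵥ (fun k => w ⟨k.1, hT k.2⟩) =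
      ∑ k ∈ T, x k * (if h : k ∈ S then w ⟨k, h⟩ else 0) := by
    intro T hT
    rw [← Finset.sum_coe_sort T, dotProduct]
    refine Finset.sum_congr rfl fun k _ => ?_
    rw [dif_pos (hT k.2)]
    rfl
  rw [h1 S' h]
  have h2 := h1 S (Finset.Subset.refl S)
  change rs S x ⬝ᵥ w = _ at h2
  rw [h2]
  refine (Finset.sum_subset h fun k _ hk => ?_).symm
  rw [hx k hk, zero_mul]

/-- The relations with support in a finite set. -/
def Xs (S : Finset A) (W : Submodule ℂ (S → ℂ)) : Submodule ℂ (A →₀ ℂ) where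
  carrier := {x | (∀ k, k ∉ S → x k = 0) ∧ rs S x ∈ Ann W}
  zero_mem' := ⟨fun k _ => rfl, (Ann W).zero_mem⟩
  add_mem' := by
    rintro x y ⟨h1, h2⟩ ⟨h3, h4⟩
    exact ⟨fun k hk => by rw [Finsupp.add_apply, h1 k hk, h3 k hk, add_zero],
      (Ann W).add_mem h2 h4⟩
  smul_mem' := by
    rintro c x ⟨h1, h2⟩
    exact ⟨fun k hk => by rw [Finsupp.smul_apply, h1 k hk, smul_zero], (Ann W).smul_mem c h2⟩

theorem emb_mem {S : Finset A} {W : Submodule ℂ (S → ℂ)} {r : S → ℂ} (hr : r ∈ Ann W) :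
    emb S r ∈ Xs S W :=
  ⟨fun k hk => by rw [emb_apply, dif_neg hk], by rwa [rs_emb]⟩

theorem emb_rs {S : Finset A} {x : A →₀ ℂ} (hx : ∀ k, k ∉ S → x k = 0) : emb S (rs S x) = x := by
  ext k
  rw [emb_apply]
  split_ifs with h
  · rfl
  · exact (hx k h).symm

theorem Xs_eq {S : Finset A} {W : Submodule ℂ (S → ℂ)} : Xs S W = (Ann W).map (emb S) := by
  ext x
  constructor
  · rintro ⟨h1, h2⟩
    exact ⟨_, h2, emb_rs h1⟩
  · rintro ⟨r, hr, rfl⟩
    exact emb_mem hr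

theorem Xs_finite {S : Finset A} {W : Submodule ℂ (S → ℂ)} : Module.Finite ℂ (Xs S W) := by
  rw [Xs_eq]
  infer_instance

theorem finrank_Xs {S : Finset A} {W : Submodule ℂ (S → ℂ)} :
    finrank ℂ (Xs S W) ≤ finrank ℂ ((S → ℂ) ⧸ W) := by
  rw [Xs_eq]
  exact (Submodule.finrank_map_le _ _).trans (finrank_Ann W)

theorem Xs_rat {S : Finset A} {W : Submodule ℂ (S → ℂ)}
    (hW : ∀ δ : Derivation ℚ ℂ ℂ, ∀ w ∈ W, (fun k => δ (w k)) ∈ W) :
    Xs S W ≤ Submodule.span ℂ {x | x ∈ Xs S W ∧ ∀ k, IsAlgebraic ℚ (x k)} := by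
  rintro x ⟨hx1, hx2⟩
  rw [← emb_rs hx1]
  have h1 : (Ann W).map (emb S) ≤
      Submodule.span ℂ {x | x ∈ Xs S W ∧ ∀ k, IsAlgebraic ℚ (x k)} := by
    refine (Submodule.map_mono (Ann_rat hW)).trans ?_
    rw [Submodule.map_span]
    refine Submodule.span_mono ?_
    rintro _ ⟨r, ⟨hr, hra⟩, rfl⟩
    refine ⟨emb_mem hr, fun k => ?_⟩
    rw [emb_apply]
    split_ifs
    · exact hra _
    · exact isAlgebraic_zero
  exact h1 ⟨_, hx2, rfl⟩

end sub

section fam

variable {ι : Type} [DecidableEq ι] {N R : ι → Type}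
  [∀ i, Fintype (N i)] [∀ i, DecidableEq (N i)] [∀ i, Nonempty (N i)] [∀ i, DecidableEq (R i)]
variable {B D : Type} [Fintype B] [DecidableEq B] [Fintype D] [DecidableEq D]

/-- The Lie algebra for finitely many pieces and columns. -/
def LK (P P' : ∀ i, Matrix (N i) (N i) ℂ) (v : ∀ i, Matrix (N i) (R i) ℂ)
    (Q Q' : Matrix B B ℂ) (J : Finset ι) (K : ∀ i, Finset (R i)) :
    Submodule ℂ (Tr (fun j : J => N j) (fun j : J => K j) B) :=
  Lm (fun j : J => P j) (fun j : J => P' j)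
    (fun j : J => (v j).submatrix id (fun k : K j => k.1)) Q Q'

/-- The rows. -/
def WK (P P' : ∀ i, Matrix (N i) (N i) ℂ) (v : ∀ i, Matrix (N i) (R i) ℂ)
    (Q Q' : Matrix B B ℂ) (J : Finset ι) (K : ∀ i, Finset (R i)) (j : J) :
    Submodule ℂ (K j → ℂ) :=
  Rw (Y0 (LK P P' v Q Q' J K)) j

/-- The relations. -/
def XK (P P' : ∀ i, Matrix (N i) (N i) ℂ) (v : ∀ i, Matrix (N i) (R i) ℂ)
    (Q Q' : Matrix B B ℂ) (J : Finset ι) (K : ∀ i, Finset (R i)) (j : J) :
    Submodule ℂ (R j →₀ ℂ) :=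
  Xs (K j) (WK P P' v Q Q' J K j)

variable {P P' : ∀ i, Matrix (N i) (N i) ℂ} {v : ∀ i, Matrix (N i) (R i) ℂ}
  {Q Q' : Matrix B B ℂ}

theorem WK_rest {J' J : Finset ι} (h : J' ⊆ J) {K' K : ∀ i, Finset (R i)}
    (hK : ∀ i, K' i ⊆ K i) {i : ι} (hi : i ∈ J') {w : K i → ℂ}
    (hw : w ∈ WK P P' v Q Q' J K ⟨i, h hi⟩) :
    (fun k : K' i => w ⟨k.1, hK i k.2⟩) ∈ WK P P' v Q Q' J' K' ⟨i, hi⟩ := by
  have h1 := Rw_restC (J := J) (J' := J') (N := fun j : J => N j) (R := fun j : J => K j)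
    (R' := fun j : J' => K' j) (B := B) (fun j => ⟨j.1, h j.2⟩)
    (fun _ _ hab => Subtype.ext (congrArg (fun x : J => x.1) hab))
    (fun j k => ⟨k.1, hK j.1 k.2⟩) (P := fun j : J => P j) (P' := fun j : J => P' j)
    (v := fun j : J => (v j).submatrix id (fun k : K j => k.1)) (Q := Q) (Q' := Q') ⟨i, hi⟩
    (w := w) hw
  have h2 : (fun j : J' => ((v j).submatrix id (fun k : K j => k.1)).submatrix id
      (fun k : K' j => (⟨k.1, hK j.1 k.2⟩ : K j))) =
      fun j : J' => (v j).submatrix id (fun k : K' j => k.1) := by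
    funext j
    ext a k
    rfl
  change _ ∈ Rw (Y0 (Lm (fun j : J' => P j) (fun j : J' => P' j)
    (fun j : J' => ((v j).submatrix id (fun k : K j => k.1)).submatrix id
      (fun k : K' j => (⟨k.1, hK j.1 k.2⟩ : K j))) Q Q')) _ at h1
  rw [h2] at h1
  exact h1

theorem XK_mono {J' J : Finset ι} (h : J' ⊆ J) {K' K : ∀ i, Finset (R i)}
    (hK : ∀ i, K' i ⊆ K i) {i : ι} (hi : i ∈ J') :
    XK P P' v Q Q' J' K' ⟨i, hi⟩ ≤ XK P P' v Q Q' J K ⟨i, h hi⟩ := by
  rintro x ⟨hx1, hx2⟩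
  refine ⟨fun k hk => hx1 k (fun h' => hk (hK i h')), fun w hw => ?_⟩
  have h1 := rs_dot (hK i) hx1 w
  have h2 := hx2 _ (WK_rest h hK hi hw)
  rw [h2] at h1
  exact h1

end fam

end Pool.Agent.TH128.OM
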