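import Pool.Agent.TH128.OM.Inf

/-!
# The unipotent part: infinite families of extensions, the main theorem
-/

set_option autoImplicit false
set_option linter.unusedSectionVars false

open Module Matrix

namespace Pool.Agent.TH128.OM

open Pool.Agent.TH164.Spin Pool.Agent.TH119.MX Pool.Agent.TH164.A1
open Pool.Agent.TH128.KS (Blk)

section rows

variable {J : Type} [Fintype J] [DecidableEq J] {N R : J → Type}
  [∀ j, Fintype (N j)] [∀ j, DecidableEq (N j)] [∀ j, Nonempty (N j)]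
  [∀ j, Fintype (R j)] [∀ j, DecidableEq (R j)]
variable {S : Submodule ℂ (∀ j, Matrix (N j) (R j) ℂ)}

theorem Rw_der (hδ : ∀ δ : Derivation ℚ ℂ ℂ, ∀ y ∈ S, (fun j => (y j).map δ) ∈ S) (j : J)
    (δ : Derivation ℚ ℂ ℂ) {w : R j → ℂ} (hw : w ∈ Rw S j) : (fun k => δ (w k)) ∈ Rw S j := by
  intro a
  have h1 := hδ δ _ (hw a)
  have h2 : (fun i => ((Pi.single j (rowm a w) : ∀ j, Matrix (N j) (R j) ℂ) i).map δ) =
      Pi.single j (rowm a fun i => δ (w i)) := by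
    funext i
    by_cases hij : i = j
    · subst hij
      rw [Pi.single_eq_same, Pi.single_eq_same]
      ext b k
      rw [Matrix.map_apply, rowm, rowm, Matrix.of_apply, Matrix.of_apply]
      split_ifs
      · rfl
      · exact map_zero δ
    · rw [Pi.single_eq_of_ne hij, Pi.single_eq_of_ne hij, map_zero']
  rw [h2] at h1
  exact h1

end rows

theorem cod_le {J : Type} {N R : J → Type} [∀ j, Fintype (N j)] [∀ j, Fintype (R j)]
    {T : Finset J} {W : ∀ i, Submodule ℂ (R i → ℂ)} {m n : ℕ}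
    (h : n * ∑ i ∈ T, Fintype.card (N i) * Fintype.card (R i) ≤
      n * ∑ i ∈ T, Fintype.card (N i) * finrank ℂ (W i) + m) :
    n * ∑ i ∈ T, Fintype.card (N i) * finrank ℂ ((R i → ℂ) ⧸ W i) ≤ m := by
  have h1 : ∑ i ∈ T, Fintype.card (N i) * Fintype.card (R i) =
      ∑ i ∈ T, Fintype.card (N i) * finrank ℂ ((R i → ℂ) ⧸ W i) +
        ∑ i ∈ T, Fintype.card (N i) * finrank ℂ (W i) := by
    rw [← Finset.sum_add_distrib]
    refine Finset.sum_congr rfl fun i _ => ?_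
    rw [← mul_add, Submodule.finrank_quotient_add_finrank, Module.finrank_fintype_fun_eq_card]
  rw [h1, mul_add, add_comm] at h
  exact Nat.le_of_add_le_add_left h

section fam

variable {ι : Type} [DecidableEq ι] {N R : ι → Type}
  [∀ i, Fintype (N i)] [∀ i, DecidableEq (N i)] [∀ i, Nonempty (N i)] [∀ i, DecidableEq (R i)]
variable {B D : Type} [Fintype B] [DecidableEq B] [Fintype D] [DecidableEq D]
variable {P P' : ∀ i, Matrix (N i) (N i) ℂ} {v : ∀ i, Matrix (N i) (R i) ℂ}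
  {Q Q' : Matrix B B ℂ} {deg : B → D}

/-- The columns. -/
def vK (v : ∀ i, Matrix (N i) (R i) ℂ) (J : Finset ι) (K : ∀ i, Finset (R i)) :
    ∀ j : J, Matrix (N j) (K j) ℂ :=
  fun j => (v j).submatrix id (fun k : K j => k.1)

theorem bd_tot (hP : ∀ i, P i * P' i = 1) (hP' : ∀ i, P' i * P i = 1)
    (hQb : Blk deg Q) (hQb' : Blk deg Q') {J : Finset ι} {K : ∀ i, Finset (R i)}
    (hI : Ind (fun j : J => P j) (vK v J K)) (T : Finset J) :
    ∑ j ∈ T, Fintype.card (N j) * finrank ℂ ((K j → ℂ) ⧸ WK P P' v Q Q' J K j) ≤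
      Fintype.card {p : B × B // deg p.1 = deg p.2} := by
  have hgd : Gd (fun j : J => P j) (fun j : J => P' j) (vK v J K) Q Q' (LK P P' v Q Q' J K) :=
    gd_Lm _ _ _ _ _
  have hgen := Lx_gen (fun j : J => hP j) (fun j : J => hP' j) hgd hI
  have htop := fun j : J => Y1_top (fun j : J => hP j) (fun j : J => hP' j) hgd hI j
  have hblk : ∀ p ∈ LK P P' v Q Q' J K, Blk deg p.2.2 := fun p hp => Lm_blk hQb hQb' hp
  have h1 := dim_gen (T := T) (G := Bk deg) (Y0_mul hgd hgen) (fun y _ => by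
    obtain ⟨z, hz⟩ := mem_Y1 (y := y) htop
    exact ⟨z, hblk _ (mem_Nn.1 hz), hz⟩)
  have h0 := finrank_Bk deg
  have h2 := cod_le (J := J) (N := fun j : J => N j) (R := fun j : J => K j) (T := T)
    (W := fun j => WK P P' v Q Q' J K j) (n := 1)
    (m := Fintype.card {p : B × B // deg p.1 = deg p.2}) (by
      rw [one_mul, one_mul]
      exact h1.trans (Nat.add_le_add_left h0 _))
  rwa [one_mul] at h2

theorem bd_T (hP : ∀ i, P i * P' i = 1) (hP' : ∀ i, P' i * P i = 1)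
    (hQb : Blk deg Q) (hQb' : Blk deg Q') {J : Finset ι} {K : ∀ i, Finset (R i)}
    (hI : Ind (fun j : J => P j) (vK v J K)) {T : Finset J} {t : ℂ} (htr : ¬ IsAlgebraic ℚ t)
    (ht : ∀ j ∈ T, ∃ a, IsAlgebraic ℚ a ∧ (P j).det ^ 2 = a * t ^ Fintype.card (N j)) :
    4 * ∑ j ∈ T, Fintype.card (N j) * finrank ℂ ((K j → ℂ) ⧸ WK P P' v Q Q' J K j) ≤
      Fintype.card {p : B × B // deg p.1 = deg p.2} := by
  have hgd : Gd (fun j : J => P j) (fun j : J => P' j) (vK v J K) Q Q' (LK P P' v Q Q' J K) :=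
    gd_Lm _ _ _ _ _
  have hblk : ∀ p ∈ LK P P' v Q Q' J K, Blk deg p.2.2 := fun p hp => Lm_blk hQb hQb' hp
  exact cod_le (J := J) (N := fun j : J => N j) (R := fun j : J => K j) (T := T)
    (W := fun j => WK P P' v Q Q' J K j) (n := 4)
    (m := Fintype.card {p : B × B // deg p.1 = deg p.2})
    (dim_T (fun j : J => hP j) (fun j : J => hP' j) hgd hI hblk htr ht)

/-- The bounds hold for every finite set of pieces. -/
theorem exists_max (hP : ∀ i, P i * P' i = 1) (hP' : ∀ i, P' i * P i = 1)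
    (hQb : Blk deg Q) (hQb' : Blk deg Q')
    (hI : ∀ (J : Finset ι) (K : ∀ i, Finset (R i)), Ind (fun j : J => P j) (vK v J K)) (i : ι) :
    ∃ (J : Finset ι) (K : ∀ i, Finset (R i)) (hi : i ∈ J), ∀ (J' : Finset ι)
      (K' : ∀ i, Finset (R i)) (h : J ⊆ J') (_ : ∀ i, K i ⊆ K' i),
      XK P P' v Q Q' J K ⟨i, hi⟩ = XK P P' v Q Q' J' K' ⟨i, h hi⟩ := by
  classical
  obtain ⟨n, hn⟩ : ∃ n, n = Fintype.card {p : B × B // deg p.1 = deg p.2} := ⟨_, rfl⟩
  have hbd : ∀ (J : Finset ι) (K : ∀ i, Finset (R i)) (hi : i ∈ J),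
      finrank ℂ (XK P P' v Q Q' J K ⟨i, hi⟩) ≤ n := by
    intro J K hi
    have h1 := bd_tot hP hP' hQb hQb' (hI J K) {⟨i, hi⟩}
    rw [Finset.sum_singleton, ← hn] at h1
    exact finrank_Xs.trans ((Nat.le_mul_of_pos_left _ Fintype.card_pos).trans h1)
  have hex : ∃ m : ℕ, ∃ (J : Finset ι) (K : ∀ i, Finset (R i)) (hi : i ∈ J),
      n - finrank ℂ (XK P P' v Q Q' J K ⟨i, hi⟩) = m :=
    ⟨_, {i}, fun _ => ∅, Finset.mem_singleton_self i, rfl⟩
  obtain ⟨J, K, hi, hJ⟩ := Nat.find_spec hex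
  refine ⟨J, K, hi, fun J' K' h hK => ?_⟩
  have hfin : Module.Finite ℂ (XK P P' v Q Q' J' K' ⟨i, h hi⟩) := Xs_finite
  refine Submodule.eq_of_le_of_finrank_le (XK_mono h hK hi) ?_
  have h1 := Nat.find_min' hex ⟨J', K', h hi, rfl⟩
  rw [← hJ] at h1
  have h2 := hbd J K hi
  have h3 := hbd J' K' (h hi)
  omega

/-- **Main theorem.** -/
theorem mainInf (hP : ∀ i, P i * P' i = 1) (hP' : ∀ i, P' i * P i = 1) (hQ : Q * Q' = 1)
    (hQ' : Q' * Q = 1)
    (hI : ∀ (J : Finset ι) (K : ∀ i, Finset (R i)), Ind (fun j : J => P j) (vK v J K))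
    (hQb : Blk deg Q) (hQb' : Blk deg Q') :
    ∃ X : ∀ i, Submodule ℂ (R i →₀ ℂ),
      (∀ i, Module.Finite ℂ (X i)) ∧
      (∀ i, X i ≤ Submodule.span ℂ {x | x ∈ X i ∧ ∀ k, IsAlgebraic ℚ (x k)}) ∧
      (∀ T : Finset ι, ∑ i ∈ T, Fintype.card (N i) * finrank ℂ (X i) ≤
        Fintype.card {p : B × B // deg p.1 = deg p.2}) ∧
      (∀ (T : Finset ι) (t : ℂ), ¬ IsAlgebraic ℚ t → (∀ i ∈ T, ∃ a, IsAlgebraic ℚ a ∧
        (P i).det ^ 2 = a * t ^ Fintype.card (N i)) →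
        4 * ∑ i ∈ T, Fintype.card (N i) * finrank ℂ (X i) ≤
          Fintype.card {p : B × B // deg p.1 = deg p.2}) ∧
      ∀ (J : Finset ι) (K : ∀ i, Finset (R i)) (H : Set (Matrix (Ix (fun j : J => N j)
        (fun j : J => K j) B) (Ix (fun j : J => N j) (fun j : J => K j) B) ℂ)), AlgGrp QA H →
        ∀ A A' : Matrix (Ix (fun j : J => N j) (fun j : J => K j) B)
          (Ix (fun j : J => N j) (fun j : J => K j) B) ℂ, A * A' = 1 →
        (∀ i j, A' i j ∈ QA) → Pm (fun j : J => P j) (vK v J K) Q * A ∈ H →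
        ∀ y : ∀ j : J, Matrix (N j) (K j) ℂ,
          (∀ (j : J) (a : N j), ∀ x ∈ X j, (∀ k, k ∉ K j → x k = 0) →
            ∑ k : K j, x k.1 * y j a k = 0) →
          Pm (1 : ∀ j : J, Matrix (N j) (N j) ℂ) y (1 : Matrix B B ℂ) ∈ H := by
  choose Jf Kf hif hf using exists_max hP hP' hQb hQb' hI
  have hX1 : ∀ (J : Finset ι) (K : ∀ i, Finset (R i)) (i : ι) (hi : i ∈ J),
      XK P P' v Q Q' J K ⟨i, hi⟩ ≤ XK P P' v Q Q' (Jf i) (Kf i) ⟨i, hif i⟩ := by
    intro J K i hi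
    rw [hf i (Jf i ∪ J) (fun a => Kf i a ∪ K a) Finset.subset_union_left
      (fun a => Finset.subset_union_left)]
    exact XK_mono Finset.subset_union_right (fun a => Finset.subset_union_right) hi
  have hX2 : ∀ T : Finset ι, ∃ (J : Finset ι) (K : ∀ i, Finset (R i)) (h : T ⊆ J),
      ∀ i (hi : i ∈ T), XK P P' v Q Q' (Jf i) (Kf i) ⟨i, hif i⟩ =
        XK P P' v Q Q' J K ⟨i, h hi⟩ := by
    intro T
    refine ⟨T ∪ T.biUnion Jf, fun a => T.biUnion fun i => Kf i a, Finset.subset_union_left,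
      fun i hi => ?_⟩
    exact hf i (T ∪ T.biUnion Jf) (fun a => T.biUnion fun i => Kf i a)
      ((Finset.subset_biUnion_of_mem Jf hi).trans Finset.subset_union_right)
      (fun a => Finset.subset_biUnion_of_mem (fun i => Kf i a) hi)
  have hsum : ∀ (T J : Finset ι) (_ : T ⊆ J) (F : ι → ℕ),
      ∑ j ∈ Finset.univ.filter (fun j : J => j.1 ∈ T), F j = ∑ i ∈ T, F i := by
    intro T J hTJ F
    exact Finset.sum_bij (fun j _ => j.1) (fun j hj => (Finset.mem_filter.1 hj).2)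
      (fun a _ b _ h => Subtype.ext h) (fun i hi => ⟨⟨i, hTJ hi⟩, Finset.mem_filter.2
        ⟨Finset.mem_univ _, hi⟩, rfl⟩) (fun j _ => rfl)
  have hle : ∀ (T J : Finset ι) (K : ∀ i, Finset (R i)) (h : T ⊆ J)
      (_ : ∀ i (hi : i ∈ T), XK P P' v Q Q' (Jf i) (Kf i) ⟨i, hif i⟩ =
        XK P P' v Q Q' J K ⟨i, h hi⟩),
      ∑ i ∈ T, Fintype.card (N i) * finrank ℂ (XK P P' v Q Q' (Jf i) (Kf i) ⟨i, hif i⟩) ≤
      ∑ j ∈ Finset.univ.filter (fun j : J => j.1 ∈ T), Fintype.card (N j) *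
        finrank ℂ ((K j → ℂ) ⧸ WK P P' v Q Q' J K j) := by
    intro T J K h hTX
    rw [← hsum T J h fun i => Fintype.card (N i) *
      finrank ℂ (XK P P' v Q Q' (Jf i) (Kf i) ⟨i, hif i⟩)]
    refine Finset.sum_le_sum fun j hj => Nat.mul_le_mul_left _ ?_
    rw [hTX j.1 (Finset.mem_filter.1 hj).2]
    exact finrank_Xs
  refine ⟨fun i => XK P P' v Q Q' (Jf i) (Kf i) ⟨i, hif i⟩, fun i => Xs_finite, fun i => ?_,
    fun T => ?_, fun T t htr ht => ?_, ?_⟩
  · exact Xs_rat fun δ w hw => Rw_der (fun δ y hy => Y0_der (gd_Lm _ _ _ _ _) δ hy) _ δ hw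
  · obtain ⟨J, K, h, hTX⟩ := hX2 T
    exact (hle T J K h hTX).trans (bd_tot hP hP' hQb hQb' (hI J K) _)
  · obtain ⟨J, K, h, hTX⟩ := hX2 T
    exact (Nat.mul_le_mul_left 4 (hle T J K h hTX)).trans (bd_T hP hP' hQb hQb' (hI J K) htr
      fun j hj => ht j.1 (Finset.mem_filter.1 hj).2)
  · intro J K H hH A A' hA hAa hPA y hy
    have hgd := gd_Hm hH (fun j : J => hP j) (fun j : J => hP' j) hQ hQ' hA hAa hPA
    have hΛ : LK P P' v Q Q' J K ≤ Hm H := Lm_le hgd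
    refine unip_mem hH hΛ fun j a => ?_
    refine mem_of_Ann (W := WK P P' v Q Q' J K j) fun r hr => ?_
    have h1 : emb (K j) r ∈ XK P P' v Q Q' J K j := emb_mem hr
    have h2 := hy j a _ (hX1 J K j.1 j.2 h1) (fun k hk => by rw [emb_apply, dif_neg hk])
    have h3 : r ⬝ᵥ y j a = ∑ k : K j, emb (K j) r k.1 * y j a k := by
      rw [dotProduct]
      refine Finset.sum_congr rfl fun k _ => ?_
      rw [emb_apply, dif_pos k.2]
    rw [h3]
    exact h2

end fam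

end Pool.Agent.TH128.OM
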