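import Pool.Agent.TH128.OM.Center
import Pool.Agent.TH128.KZ.Full
import Pool.Agent.TH164.Spin.Jac

/-!
# The Lie algebra of a group which contains the periods of 1-motives and of an object
-/

set_option autoImplicit false
set_option linter.unusedSectionVars false

open Module Matrix

namespace Pool.Agent.TH128.OM

open Pool.Agent.TH164.Spin Pool.Agent.TH119.MX Pool.Agent.TH164.A1

variable {J : Type} [Fintype J] [DecidableEq J] {N R : J → Type}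
  [∀ j, Fintype (N j)] [∀ j, DecidableEq (N j)] [∀ j, Nonempty (N j)]
  [∀ j, Fintype (R j)] [∀ j, DecidableEq (R j)]
variable {B : Type} [Fintype B] [DecidableEq B]

/-- The index set. -/
abbrev Ix (N R : J → Type) (B : Type) := (Σ j, N j ⊕ R j) ⊕ B

/-- The triples. -/
abbrev Tr (N R : J → Type) (B : Type) :=
  (∀ j, Matrix (N j) (N j) ℂ) × (∀ j, Matrix (N j) (R j) ℂ) × Matrix B B ℂ

/-- The matrix of a triple. -/
def Em (x : ∀ j, Matrix (N j) (N j) ℂ) (y : ∀ j, Matrix (N j) (R j) ℂ) (z : Matrix B B ℂ) :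
    Matrix (Ix N R B) (Ix N R B) ℂ :=
  fromBlocks (bd fun j => fromBlocks (x j) (y j) 0 0) 0 0 z

theorem Em_add (x x' : ∀ j, Matrix (N j) (N j) ℂ) (y y' : ∀ j, Matrix (N j) (R j) ℂ)
    (z z' : Matrix B B ℂ) : Em (x + x') (y + y') (z + z') = Em x y z + Em x' y' z' := by
  unfold Em
  rw [fromBlocks_add, add_zero, add_zero, ← map_add]
  congr 2
  funext j
  rw [Pi.add_apply, Pi.add_apply, Pi.add_apply, fromBlocks_add, add_zero, add_zero]

theorem Em_smul (a : ℂ) (x : ∀ j, Matrix (N j) (N j) ℂ) (y : ∀ j, Matrix (N j) (R j) ℂ)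
    (z : Matrix B B ℂ) : Em (a • x) (a • y) (a • z) = a • Em x y z := by
  unfold Em
  rw [fromBlocks_smul, smul_zero, smul_zero, ← map_smul]
  congr 2
  funext j
  rw [Pi.smul_apply, Pi.smul_apply, Pi.smul_apply, fromBlocks_smul, smul_zero, smul_zero]

theorem Em_zero : Em (0 : ∀ j, Matrix (N j) (N j) ℂ) (0 : ∀ j, Matrix (N j) (R j) ℂ)
    (0 : Matrix B B ℂ) = 0 := by
  have h := Em_smul (0 : ℂ) (0 : ∀ j, Matrix (N j) (N j) ℂ) (0 : ∀ j, Matrix (N j) (R j) ℂ)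
    (0 : Matrix B B ℂ)
  rwa [zero_smul, zero_smul, zero_smul, zero_smul] at h

theorem blk_mul {N₁ : Type} [Fintype N₁] [DecidableEq N₁] (x x' : Matrix N₁ N₁ ℂ)
    (y y' : Matrix B B ℂ) :
    fromBlocks x 0 0 y * fromBlocks x' 0 0 y' = fromBlocks (x * x') 0 0 (y * y') := by
  rw [fromBlocks_multiply]
  simp

theorem Em_mul (x x' : ∀ j, Matrix (N j) (N j) ℂ) (y y' : ∀ j, Matrix (N j) (R j) ℂ)
    (z z' : Matrix B B ℂ) :
    Em x y z * Em x' y' z' = Em (x * x') (fun j => x j * y' j) (z * z') := by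
  unfold Em
  rw [blk_mul, ← map_mul]
  congr 2
  funext j
  rw [Pi.mul_apply, Pi.mul_apply, fromBlocks_multiply]
  simp

theorem Em_br (x x' : ∀ j, Matrix (N j) (N j) ℂ) (y y' : ∀ j, Matrix (N j) (R j) ℂ)
    (z z' : Matrix B B ℂ) :
    Em x y z * Em x' y' z' - Em x' y' z' * Em x y z =
      Em (x * x' - x' * x) (fun j => x j * y' j - x' j * y j) (z * z' - z' * z) := by
  rw [Em_mul, Em_mul, sub_eq_iff_eq_add, ← Em_add, sub_add_cancel, sub_add_cancel]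
  congr 1
  funext j
  rw [Pi.add_apply, sub_add_cancel]

theorem blocks_map' {N₁ N₂ : Type} (δ : Derivation ℚ ℂ ℂ) (x : Matrix N₁ N₁ ℂ)
    (y : Matrix N₁ N₂ ℂ) (z : Matrix N₂ N₂ ℂ) :
    (fromBlocks x y 0 z).map δ = fromBlocks (x.map δ) (y.map δ) 0 (z.map δ) := by
  rw [fromBlocks_map]
  congr 1
  ext a b
  exact map_zero δ

theorem map_zero' {N₁ N₂ : Type} (δ : Derivation ℚ ℂ ℂ) :
    (0 : Matrix N₁ N₂ ℂ).map δ = 0 := by
  ext a b
  exact map_zero δ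

theorem Em_map (δ : Derivation ℚ ℂ ℂ) (x : ∀ j, Matrix (N j) (N j) ℂ)
    (y : ∀ j, Matrix (N j) (R j) ℂ) (z : Matrix B B ℂ) :
    (Em x y z).map δ = Em (fun j => (x j).map δ) (fun j => (y j).map δ) (z.map δ) := by
  unfold Em
  rw [blocks_map', bd_map, map_zero']
  congr 2
  funext j
  rw [blocks_map', map_zero']

variable {H : Set (Matrix (Ix N R B) (Ix N R B) ℂ)}

/-- The Lie algebra of triples. -/
def Hm (H : Set (Matrix (Ix N R B) (Ix N R B) ℂ)) : Submodule ℂ (Tr N R B) where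
  carrier := {p | ∀ d, Stab H d (Em p.1 p.2.1 p.2.2)}
  zero_mem' := fun d => by
    change Stab H d (Em 0 0 0)
    rw [Em_zero]
    exact Stab.zero
  add_mem' := by
    rintro p q h1 h2 d
    change Stab H d (Em (p.1 + q.1) (p.2.1 + q.2.1) (p.2.2 + q.2.2))
    rw [Em_add]
    exact (h1 d).add (h2 d)
  smul_mem' := by
    rintro a p h1 d
    change Stab H d (Em (a • p.1) (a • p.2.1) (a • p.2.2))
    rw [Em_smul]
    exact (h1 d).smul a

theorem mem_Hm {x : ∀ j, Matrix (N j) (N j) ℂ} {y : ∀ j, Matrix (N j) (R j) ℂ}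
    {z : Matrix B B ℂ} : (x, y, z) ∈ Hm H ↔ ∀ d, Stab H d (Em x y z) := Iff.rfl

theorem Hm_br {x x' : ∀ j, Matrix (N j) (N j) ℂ} {y y' : ∀ j, Matrix (N j) (R j) ℂ}
    {z z' : Matrix B B ℂ} (h : (x, y, z) ∈ Hm H) (h' : (x', y', z') ∈ Hm H) :
    (x * x' - x' * x, (fun j => x j * y' j - x' j * y j), z * z' - z' * z) ∈ Hm H := by
  intro d
  change Stab H d (Em (x * x' - x' * x) (fun j => x j * y' j - x' j * y j) (z * z' - z' * z))
  rw [← Em_br]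
  exact (h d).comm (h' d)

theorem Hm_der (hH : AlgGrp QA H) (δ : Derivation ℚ ℂ ℂ) {x : ∀ j, Matrix (N j) (N j) ℂ}
    {y : ∀ j, Matrix (N j) (R j) ℂ} {z : Matrix B B ℂ} (h : (x, y, z) ∈ Hm H) :
    ((fun j => (x j).map δ), (fun j => (y j).map δ), z.map δ) ∈ Hm H := by
  intro d
  have h4 := hH.stab_map (Pool.Agent.TH119.DR.derK δ QA fun x hx => mem_QA.1 hx) (h d)
  have h5 : (Em x y z).map (Pool.Agent.TH119.DR.derK δ QA fun x hx => mem_QA.1 hx) =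
      (Em x y z).map δ := rfl
  rw [h5, Em_map] at h4
  exact h4

/-- The period matrix. -/
def Pm (P : ∀ j, Matrix (N j) (N j) ℂ) (v : ∀ j, Matrix (N j) (R j) ℂ) (Q : Matrix B B ℂ) :
    Matrix (Ix N R B) (Ix N R B) ℂ :=
  fromBlocks (bd fun j => fromBlocks (P j) (v j) 0 1) 0 0 Q

theorem Pm_mul (P P' : ∀ j, Matrix (N j) (N j) ℂ) (v v' : ∀ j, Matrix (N j) (R j) ℂ)
    (Q Q' : Matrix B B ℂ) : Pm P v Q * Pm P' v' Q' =
      Pm (P * P') (fun j => P j * v' j + v j) (Q * Q') := by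
  unfold Pm
  rw [blk_mul, ← map_mul]
  congr 2
  funext j
  rw [Pi.mul_apply, Pi.mul_apply, fromBlocks_multiply]
  simp

theorem Pm_one : Pm (1 : ∀ j, Matrix (N j) (N j) ℂ) (0 : ∀ j, Matrix (N j) (R j) ℂ)
    (1 : Matrix B B ℂ) = 1 := by
  unfold Pm
  have h1 : (fun j => fromBlocks ((1 : ∀ j, Matrix (N j) (N j) ℂ) j)
      ((0 : ∀ j, Matrix (N j) (R j) ℂ) j) 0 1) =
      (1 : ∀ j, Matrix (N j ⊕ R j) (N j ⊕ R j) ℂ) := by
    funext j
    exact fromBlocks_one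
  rw [h1, map_one, fromBlocks_one]

theorem map_one' {N₁ : Type} [DecidableEq N₁] (δ : Derivation ℚ ℂ ℂ) :
    (1 : Matrix N₁ N₁ ℂ).map δ = 0 := by
  ext a b
  rw [Matrix.map_apply, Matrix.one_apply, Matrix.zero_apply]
  split_ifs
  · exact δ.map_one_eq_zero
  · exact map_zero δ

theorem Pm_map (δ : Derivation ℚ ℂ ℂ) (P : ∀ j, Matrix (N j) (N j) ℂ)
    (v : ∀ j, Matrix (N j) (R j) ℂ) (Q : Matrix B B ℂ) :
    (Pm P v Q).map δ = Em (fun j => (P j).map δ) (fun j => (v j).map δ) (Q.map δ) := by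
  unfold Pm Em
  rw [blocks_map', bd_map, map_zero']
  congr 2
  funext j
  rw [blocks_map', map_one']

theorem Em_Pm (x P' : ∀ j, Matrix (N j) (N j) ℂ) (y v' : ∀ j, Matrix (N j) (R j) ℂ)
    (z Q' : Matrix B B ℂ) : Em x y z * Pm P' v' Q' =
      Em (x * P') (fun j => x j * v' j + y j) (z * Q') := by
  unfold Pm Em
  rw [blk_mul, ← map_mul]
  congr 2
  funext j
  rw [Pi.mul_apply, Pi.mul_apply, fromBlocks_multiply]
  simp

theorem Hm_log (hH : AlgGrp QA H) {P P' : ∀ j, Matrix (N j) (N j) ℂ}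
    (hP : ∀ j, P j * P' j = 1) (hP' : ∀ j, P' j * P j = 1) {v : ∀ j, Matrix (N j) (R j) ℂ}
    {Q Q' : Matrix B B ℂ} (hQ : Q * Q' = 1) (hQ' : Q' * Q = 1)
    {A A' : Matrix (Ix N R B) (Ix N R B) ℂ} (hA : A * A' = 1)
    (hAa : ∀ i j, A' i j ∈ QA) (hPA : Pm P v Q * A ∈ H) (δ : Derivation ℚ ℂ ℂ) :
    ((fun j => (P j).map δ * P' j), (fun j => (v j).map δ - (P j).map δ * P' j * v j),
      Q.map δ * Q') ∈ Hm H := by
  intro d
  have hPP : P * P' = 1 := funext fun j => hP j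
  have hPP' : P' * P = 1 := funext fun j => hP' j
  have e1 : Pm P v Q * Pm P' (fun j => -(P' j * v j)) Q' = 1 := by
    rw [Pm_mul, hPP, hQ, ← Pm_one]
    congr 1
    funext j
    rw [Matrix.mul_neg, ← Matrix.mul_assoc, hP, Matrix.one_mul, neg_add_cancel, Pi.zero_apply]
  have e2 : Pm P' (fun j => -(P' j * v j)) Q' * Pm P v Q = 1 := by
    rw [Pm_mul, hPP', hQ', ← Pm_one]
    congr 1
    funext j
    rw [add_neg_cancel, Pi.zero_apply]
  have h1 := hH.stab_der le_rfl (fun x hx => mem_QA.1 hx) e1 e2 hA hAa hPA (d := d) δ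
  rw [Pm_map, Em_Pm] at h1
  have h2 : (fun j => (P j).map δ * -(P' j * v j) + (v j).map δ) =
      (fun j => (v j).map δ - (P j).map δ * P' j * v j) := by
    funext j
    rw [Matrix.mul_neg, ← Matrix.mul_assoc, neg_add_eq_sub]
  rw [h2] at h1
  exact h1

/-- The conditions on the Lie algebra. -/
structure Gd (P P' : ∀ j, Matrix (N j) (N j) ℂ) (v : ∀ j, Matrix (N j) (R j) ℂ)
    (Q Q' : Matrix B B ℂ) (Λ : Submodule ℂ (Tr N R B)) : Prop where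
  br : ∀ {x x' : ∀ j, Matrix (N j) (N j) ℂ} {y y' : ∀ j, Matrix (N j) (R j) ℂ}
    {z z' : Matrix B B ℂ}, (x, y, z) ∈ Λ → (x', y', z') ∈ Λ →
    (x * x' - x' * x, (fun j => x j * y' j - x' j * y j), z * z' - z' * z) ∈ Λ
  der : ∀ (δ : Derivation ℚ ℂ ℂ) {x : ∀ j, Matrix (N j) (N j) ℂ}
    {y : ∀ j, Matrix (N j) (R j) ℂ} {z : Matrix B B ℂ}, (x, y, z) ∈ Λ →
    ((fun j => (x j).map δ), (fun j => (y j).map δ), z.map δ) ∈ Λ
  log : ∀ δ : Derivation ℚ ℂ ℂ, ((fun j => (P j).map δ * P' j),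
    (fun j => (v j).map δ - (P j).map δ * P' j * v j), Q.map δ * Q') ∈ Λ

theorem gd_Hm (hH : AlgGrp QA H) {P P' : ∀ j, Matrix (N j) (N j) ℂ}
    (hP : ∀ j, P j * P' j = 1) (hP' : ∀ j, P' j * P j = 1) {v : ∀ j, Matrix (N j) (R j) ℂ}
    {Q Q' : Matrix B B ℂ} (hQ : Q * Q' = 1) (hQ' : Q' * Q = 1)
    {A A' : Matrix (Ix N R B) (Ix N R B) ℂ} (hA : A * A' = 1)
    (hAa : ∀ i j, A' i j ∈ QA) (hPA : Pm P v Q * A ∈ H) : Gd P P' v Q Q' (Hm H) where
  br := Hm_br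
  der := Hm_der hH
  log := Hm_log hH hP hP' hQ hQ' hA hAa hPA

/-- The smallest Lie algebra. -/
def Lm (P P' : ∀ j, Matrix (N j) (N j) ℂ) (v : ∀ j, Matrix (N j) (R j) ℂ)
    (Q Q' : Matrix B B ℂ) : Submodule ℂ (Tr N R B) :=
  sInf {Λ | Gd P P' v Q Q' Λ}

theorem gd_Lm (P P' : ∀ j, Matrix (N j) (N j) ℂ) (v : ∀ j, Matrix (N j) (R j) ℂ)
    (Q Q' : Matrix B B ℂ) : Gd P P' v Q Q' (Lm P P' v Q Q') where
  br := fun h h' => Submodule.mem_sInf.2 fun Λ hΛ =>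
    hΛ.br (Submodule.mem_sInf.1 h Λ hΛ) (Submodule.mem_sInf.1 h' Λ hΛ)
  der := fun δ _ _ _ h => Submodule.mem_sInf.2 fun Λ hΛ =>
    hΛ.der δ (Submodule.mem_sInf.1 h Λ hΛ)
  log := fun δ => Submodule.mem_sInf.2 fun Λ hΛ => hΛ.log δ

theorem Lm_le {P P' : ∀ j, Matrix (N j) (N j) ℂ} {v : ∀ j, Matrix (N j) (R j) ℂ}
    {Q Q' : Matrix B B ℂ} {Λ : Submodule ℂ (Tr N R B)} (h : Gd P P' v Q Q' Λ) :
    Lm P P' v Q Q' ≤ Λ := sInf_le h

end Pool.Agent.TH128.OM
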