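import Pool.Agent.TH128.OM.Gen
import Pool.Agent.TH128.OW.Coc

/-!
# The unipotent part: the projection is everything
-/

set_option autoImplicit false
set_option linter.unusedSectionVars false

open Module Matrix

namespace Pool.Agent.TH128.OM

open Pool.Agent.TH164.Spin Pool.Agent.TH119.MX Pool.Agent.TH164.A1

variable {J : Type} [Fintype J] [DecidableEq J] {N R : J → Type}
  [∀ j, Fintype (N j)] [∀ j, DecidableEq (N j)] [∀ j, Nonempty (N j)]
  [∀ j, Fintype (R j)] [∀ j, DecidableEq (R j)]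
variable {B : Type} [Fintype B] [DecidableEq B]
variable {Λ : Submodule ℂ (Tr N R B)}

/-- The elements with trivial first component. -/
def Nn (Λ : Submodule ℂ (Tr N R B)) :
    Submodule ℂ ((∀ j, Matrix (N j) (R j) ℂ) × Matrix B B ℂ) :=
  Λ.comap (LinearMap.inr ℂ _ _)

theorem mem_Nn {y : ∀ j, Matrix (N j) (R j) ℂ} {z : Matrix B B ℂ} :
    (y, z) ∈ Nn Λ ↔ ((0 : ∀ j, Matrix (N j) (N j) ℂ), y, z) ∈ Λ := Iff.rfl

/-- The unipotent part of the projection. -/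
def Y1 (Λ : Submodule ℂ (Tr N R B)) : Submodule ℂ (∀ j, Matrix (N j) (R j) ℂ) :=
  (Nn Λ).map (LinearMap.fst ℂ _ _)

/-- The unipotent part. -/
def Y0 (Λ : Submodule ℂ (Tr N R B)) : Submodule ℂ (∀ j, Matrix (N j) (R j) ℂ) :=
  (Nn Λ).comap (LinearMap.inl ℂ _ _)

theorem mem_Y0 {y : ∀ j, Matrix (N j) (R j) ℂ} :
    y ∈ Y0 Λ ↔ ((0 : ∀ j, Matrix (N j) (N j) ℂ), y, (0 : Matrix B B ℂ)) ∈ Λ := Iff.rfl

theorem map_zero_pi (δ : Derivation ℚ ℂ ℂ) :
    (fun j => ((0 : ∀ j, Matrix (N j) (N j) ℂ) j).map δ) = 0 := by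
  funext j
  exact map_zero' δ

theorem Y1_der {P P' : ∀ j, Matrix (N j) (N j) ℂ} {v : ∀ j, Matrix (N j) (R j) ℂ}
    {Q Q' : Matrix B B ℂ} (hG : Gd P P' v Q Q' Λ)
    (δ : Derivation ℚ ℂ ℂ) {y : ∀ j, Matrix (N j) (R j) ℂ}
    (hy : y ∈ Y1 Λ) : (fun j => (y j).map δ) ∈ Y1 Λ := by
  obtain ⟨⟨y, z⟩, hp, rfl⟩ := hy
  have h1 := hG.der δ (mem_Nn.1 hp)
  rw [map_zero_pi] at h1
  exact ⟨(_, z.map δ), h1, rfl⟩

theorem Y0_der {P P' : ∀ j, Matrix (N j) (N j) ℂ} {v : ∀ j, Matrix (N j) (R j) ℂ}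
    {Q Q' : Matrix B B ℂ} (hG : Gd P P' v Q Q' Λ)
    (δ : Derivation ℚ ℂ ℂ) {y : ∀ j, Matrix (N j) (R j) ℂ}
    (hy : y ∈ Y0 Λ) : (fun j => (y j).map δ) ∈ Y0 Λ := by
  have h1 := hG.der δ (mem_Y0.1 hy)
  rw [map_zero_pi, map_zero'] at h1
  exact h1

theorem Nn_br {P P' : ∀ j, Matrix (N j) (N j) ℂ} {v : ∀ j, Matrix (N j) (R j) ℂ}
    {Q Q' : Matrix B B ℂ} (hG : Gd P P' v Q Q' Λ)
    {x : ∀ j, Matrix (N j) (N j) ℂ} {y y' : ∀ j, Matrix (N j) (R j) ℂ}
    {z z' : Matrix B B ℂ} (h : (x, y', z') ∈ Λ) (h' : (y, z) ∈ Nn Λ) :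
    ((fun j => x j * y j), z' * z - z * z') ∈ Nn Λ := by
  have h1 := hG.br h (mem_Nn.1 h')
  rw [mul_zero, zero_mul, sub_zero] at h1
  have h2 : (fun j => x j * y j - (0 : ∀ j, Matrix (N j) (N j) ℂ) j * y' j) =
      fun j => x j * y j := by
    funext j
    rw [Pi.zero_apply, Matrix.zero_mul, sub_zero]
  rw [h2] at h1
  exact h1

theorem Y1_mul {P P' : ∀ j, Matrix (N j) (N j) ℂ} {v : ∀ j, Matrix (N j) (R j) ℂ}
    {Q Q' : Matrix B B ℂ} (hG : Gd P P' v Q Q' Λ)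
    (hgen : Algebra.adjoin ℂ (Lx Λ : Set (∀ j, Matrix (N j) (N j) ℂ)) = ⊤)
    (x : ∀ j, Matrix (N j) (N j) ℂ) : ∀ y ∈ Y1 Λ, (fun j => x j * y j) ∈ Y1 Λ := by
  revert x
  refine adjoin_ind hgen ?_ ?_ ?_ ?_ ?_
  · intro y hy
    have h2 : (fun j => (1 : ∀ j, Matrix (N j) (N j) ℂ) j * y j) = y := by
      funext j
      exact Matrix.one_mul _
    rw [h2]
    exact hy
  · rintro _ ⟨⟨x, y', z'⟩, hp, rfl⟩ _ ⟨⟨y, z⟩, hq, rfl⟩
    exact ⟨_, Nn_br hG hp hq, rfl⟩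
  · intro x x' hx hx' y hy
    have h2 : (fun j => (x + x') j * y j) = (fun j => x j * y j) + fun j => x' j * y j := by
      funext j
      exact Matrix.add_mul _ _ _
    rw [h2]
    exact (Y1 Λ).add_mem (hx y hy) (hx' y hy)
  · intro x x' hx hx' y hy
    have h2 : (fun j => (x * x') j * y j) = fun j => x j * (x' j * y j) := by
      funext j
      exact Matrix.mul_assoc _ _ _
    rw [h2]
    exact hx _ (hx' y hy)
  · intro c x hx y hy
    have h2 : (fun j => (c • x) j * y j) = c • fun j => x j * y j := by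
      funext j
      exact Matrix.smul_mul c (x j) (y j)
    rw [h2]
    exact (Y1 Λ).smul_mem c (hx y hy)

theorem Y0_mul {P P' : ∀ j, Matrix (N j) (N j) ℂ} {v : ∀ j, Matrix (N j) (R j) ℂ}
    {Q Q' : Matrix B B ℂ} (hG : Gd P P' v Q Q' Λ)
    (hgen : Algebra.adjoin ℂ (Lx Λ : Set (∀ j, Matrix (N j) (N j) ℂ)) = ⊤)
    (x : ∀ j, Matrix (N j) (N j) ℂ) : ∀ y ∈ Y0 Λ, (fun j => x j * y j) ∈ Y0 Λ := by
  revert x
  refine adjoin_ind hgen ?_ ?_ ?_ ?_ ?_
  · intro y hy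
    have h2 : (fun j => (1 : ∀ j, Matrix (N j) (N j) ℂ) j * y j) = y := by
      funext j
      exact Matrix.one_mul _
    rw [h2]
    exact hy
  · rintro _ ⟨⟨x, y', z'⟩, hp, rfl⟩ y hy
    have h1 := Nn_br hG hp (show (y, (0 : Matrix B B ℂ)) ∈ Nn Λ from hy)
    rw [Matrix.mul_zero, Matrix.zero_mul, sub_zero] at h1
    exact h1
  · intro x x' hx hx' y hy
    have h2 : (fun j => (x + x') j * y j) = (fun j => x j * y j) + fun j => x' j * y j := by
      funext j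
      exact Matrix.add_mul _ _ _
    rw [h2]
    exact (Y0 Λ).add_mem (hx y hy) (hx' y hy)
  · intro x x' hx hx' y hy
    have h2 : (fun j => (x * x') j * y j) = fun j => x j * (x' j * y j) := by
      funext j
      exact Matrix.mul_assoc _ _ _
    rw [h2]
    exact hx _ (hx' y hy)
  · intro c x hx y hy
    have h2 : (fun j => (c • x) j * y j) = c • fun j => x j * y j := by
      funext j
      exact Matrix.smul_mul c (x j) (y j)
    rw [h2]
    exact (Y0 Λ).smul_mem c (hx y hy)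

/-- A vector killed by all derivations is algebraic. -/
theorem alg_of_der {x : ℂ} (h : ∀ δ : Derivation ℚ ℂ ℂ, δ x = 0) : IsAlgebraic ℚ x := by
  by_contra hx
  obtain ⟨δ, hδ⟩ := Pool.Agent.TH119.DR.exists_deriv hx
  exact hδ (h δ)

theorem der_mulVec {N₁ N₂ : Type} [Fintype N₂] (δ : Derivation ℚ ℂ ℂ)
    (X : Matrix N₁ N₂ ℂ) (c : N₂ → ℂ) (a : N₁) :
    δ ((X *ᵥ c) a) = ((X.map δ) *ᵥ c) a + (X *ᵥ fun i => δ (c i)) a := by
  rw [Matrix.mulVec, dotProduct, map_sum, Matrix.mulVec, dotProduct, Matrix.mulVec, dotProduct,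
    ← Finset.sum_add_distrib]
  refine Finset.sum_congr rfl fun i _ => ?_
  rw [Derivation.leibniz, smul_eq_mul, smul_eq_mul, Matrix.map_apply]
  ring

theorem der_mulVec_alg {N₁ N₂ : Type} [Fintype N₂] (δ : Derivation ℚ ℂ ℂ)
    (X : Matrix N₁ N₂ ℂ) {c : N₂ → ℂ} (hc : ∀ i, δ (c i) = 0) (a : N₁) :
    δ ((X *ᵥ c) a) = ((X.map δ) *ᵥ c) a := by
  rw [der_mulVec]
  have h1 : (fun i => δ (c i)) = 0 := funext hc
  rw [h1, Matrix.mulVec_zero, Pi.zero_apply, add_zero]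

theorem sum_rowm {M : J → Type} [∀ j, Fintype (M j)] (X : ∀ j, Matrix (N j) (M j) ℂ) (j : J)
    (a₀ : N j) (c : M j → ℂ) :
    ∑ i, ∑ a, ∑ k, (Pi.single j (Matrix.of fun a k => if a = a₀ then c k else 0) :
      ∀ j, Matrix (N j) (M j) ℂ) i a k * X i a k = ∑ k, c k * X j a₀ k := by
  rw [Finset.sum_eq_single j]
  · rw [Finset.sum_eq_single a₀]
    · refine Finset.sum_congr rfl fun k _ => ?_
      rw [Pi.single_eq_same, Matrix.of_apply, if_pos rfl]
    · intro a _ ha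
      refine Finset.sum_eq_zero fun k _ => ?_
      rw [Pi.single_eq_same, Matrix.of_apply, if_neg ha, zero_mul]
    · intro h
      exact absurd (Finset.mem_univ a₀) h
  · intro i _ hi
    refine Finset.sum_eq_zero fun a _ => Finset.sum_eq_zero fun k _ => ?_
    rw [Pi.single_eq_of_ne hi, Matrix.zero_apply, zero_mul]
  · intro h
    exact absurd (Finset.mem_univ j) h

theorem nontriv {P P' : ∀ j, Matrix (N j) (N j) ℂ}
    (hP' : ∀ j, P' j * P j = 1) {v : ∀ j, Matrix (N j) (R j) ℂ}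
    {Q Q' : Matrix B B ℂ} (hG : Gd P P' v Q Q' Λ) (hI : Ind P v) (j : J) :
    ∃ x ∈ Lx Λ, x j ≠ 0 := by
  by_contra hcon
  push Not at hcon
  have h1 : ∀ a b, IsAlgebraic ℚ (P j a b) := by
    intro a b
    refine alg_of_der fun δ => ?_
    have h2 : (P j).map δ * P' j = 0 := hcon _ ⟨_, hG.log δ, rfl⟩
    have h3 : (P j).map δ = 0 := by
      calc (P j).map δ = (P j).map δ * P' j * P j := by
            rw [Matrix.mul_assoc, hP', Matrix.mul_one]
        _ = 0 := by rw [h2, Matrix.zero_mul]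
    exact congrFun (congrFun h3 a) b
  obtain ⟨a₀⟩ : Nonempty (N j) := inferInstance
  have h2 := (hI (-(P j a₀ a₀)) (Pi.single j (Matrix.of fun a k => if a = a₀ then
    (if k = a₀ then 1 else 0) else 0)) 0 (h1 a₀ a₀).neg (by
      intro i a k
      by_cases hij : i = j
      · subst hij
        rw [Pi.single_eq_same, Matrix.of_apply]
        split_ifs
        · exact isAlgebraic_one
        · exact isAlgebraic_zero
        · exact isAlgebraic_zero
      · rw [Pi.single_eq_of_ne hij]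
        exact isAlgebraic_zero) (fun j a i => isAlgebraic_zero) (by
      rw [sum_rowm P j a₀ (fun k => if k = a₀ then 1 else 0)]
      simp)).1
  have h3 := congrFun (congrFun (congrFun h2 j) a₀) a₀
  rw [Pi.single_eq_same, Matrix.of_apply, if_pos rfl, if_pos rfl] at h3
  exact one_ne_zero h3

/-- The first component of an element. -/
def piL (Λ : Submodule ℂ (Tr N R B)) : Λ →ₗ[ℂ] Lx Λ where
  toFun p := ⟨p.1.1, p.1, p.2, rfl⟩
  map_add' _ _ := rfl
  map_smul' _ _ := rfl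

/-- The combination of the second component. -/
def psL (Λ : Submodule ℂ (Tr N R B)) (j : J) (c : R j → ℂ) : Λ →ₗ[ℂ] (N j → ℂ) where
  toFun p := p.1.2.1 j *ᵥ c
  map_add' p q := Matrix.add_mulVec (p.1.2.1 j) (q.1.2.1 j) c
  map_smul' a p := Matrix.smul_mulVec a (p.1.2.1 j) c

theorem psL_apply {j : J} {c : R j → ℂ} {x : ∀ j, Matrix (N j) (N j) ℂ}
    {y : ∀ j, Matrix (N j) (R j) ℂ} {z : Matrix B B ℂ} (h : (x, y, z) ∈ Λ) :
    psL Λ j c ⟨(x, y, z), h⟩ = y j *ᵥ c := rfl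

theorem piL_apply {x : ∀ j, Matrix (N j) (N j) ℂ}
    {y : ∀ j, Matrix (N j) (R j) ℂ} {z : Matrix B B ℂ} (h : (x, y, z) ∈ Λ) :
    piL Λ ⟨(x, y, z), h⟩ = ⟨x, (x, y, z), h, rfl⟩ := rfl

theorem exists_w {P P' : ∀ j, Matrix (N j) (N j) ℂ} {v : ∀ j, Matrix (N j) (R j) ℂ}
    {Q Q' : Matrix B B ℂ} (hG : Gd P P' v Q Q' Λ)
    (hgen : Algebra.adjoin ℂ (Lx Λ : Set (∀ j, Matrix (N j) (N j) ℂ)) = ⊤) {j : J}
    (hnt : ∃ x ∈ Lx Λ, x j ≠ 0) {c : R j → ℂ} (hkill : ∀ y ∈ Y1 Λ, y j *ᵥ c = 0) :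
    ∃ w : N j → ℂ, ∀ x y z, (x, y, z) ∈ Λ → y j *ᵥ c = x j *ᵥ w := by
  have hπ : LinearMap.range (piL Λ) = ⊤ := by
    rw [LinearMap.range_eq_top]
    rintro ⟨_, p, hp, rfl⟩
    exact ⟨⟨p, hp⟩, rfl⟩
  obtain ⟨σ, hσ⟩ := LinearMap.exists_rightInverse_of_surjective (piL Λ) hπ
  have hσ' : ∀ x, piL Λ (σ x) = x := fun x => LinearMap.congr_fun hσ x
  have hψ : ∀ p : Λ, psL Λ j c p = psL Λ j c (σ (piL Λ p)) := by
    intro p
    have h1 : piL Λ (p - σ (piL Λ p)) = 0 := by rw [map_sub, hσ', sub_self]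
    have h2 : ∀ q : Λ, piL Λ q = 0 → psL Λ j c q = 0 := by
      rintro ⟨⟨x, y, z⟩, hq⟩ h3
      have h4 : x = 0 := congrArg Subtype.val h3
      subst h4
      exact hkill y ⟨(y, z), hq, rfl⟩
    have h3 := h2 _ h1
    rw [map_sub, sub_eq_zero] at h3
    exact h3
  obtain ⟨w, hw⟩ := Pool.Agent.TH128.OW.cob_of (fun x hx y hy => Lx_br hG hx hy) hgen j hnt
    (psL Λ j c ∘ₗ σ) (by
    intro x hx y hy
    obtain ⟨⟨⟨x1, y1, z1⟩, hp⟩, hpe⟩ : ∃ p, p = σ ⟨x, hx⟩ := ⟨_, rfl⟩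
    obtain ⟨⟨⟨x2, y2, z2⟩, hq⟩, hqe⟩ : ∃ q, q = σ ⟨y, hy⟩ := ⟨_, rfl⟩
    have h1 : x1 = x := by
      have h2 := hσ' ⟨x, hx⟩
      rw [← hpe] at h2
      exact congrArg Subtype.val h2
    have h2 : x2 = y := by
      have h3 := hσ' ⟨y, hy⟩
      rw [← hqe] at h3
      exact congrArg Subtype.val h3
    subst h1
    subst h2
    have h3 := hψ ⟨_, hG.br hp hq⟩
    rw [piL_apply, psL_apply] at h3
    have a1 : psL Λ j c (σ ⟨x1, hx⟩) = y1 j *ᵥ c := by
      rw [← hpe]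
      rfl
    have a2 : psL Λ j c (σ ⟨x2, hy⟩) = y2 j *ᵥ c := by
      rw [← hqe]
      rfl
    rw [LinearMap.comp_apply, LinearMap.comp_apply, LinearMap.comp_apply, a1, a2,
      Matrix.mulVec_mulVec, Matrix.mulVec_mulVec, ← Matrix.sub_mulVec]
    exact h3.symm)
  refine ⟨w, fun x y z hp => ?_⟩
  have h1 := hψ ⟨(x, y, z), hp⟩
  rw [piL_apply, psL_apply] at h1
  rw [h1]
  exact hw x ⟨_, hp, rfl⟩

/-- **The projection to the unipotent part.** -/
theorem Y1_top {P P' : ∀ j, Matrix (N j) (N j) ℂ}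
    (hP : ∀ j, P j * P' j = 1) (hP' : ∀ j, P' j * P j = 1) {v : ∀ j, Matrix (N j) (R j) ℂ}
    {Q Q' : Matrix B B ℂ} (hG : Gd P P' v Q Q' Λ) (hI : Ind P v)
    (j : J) : Rw (Y1 Λ) j = ⊤ := by
  have hgen := Lx_gen hP hP' hG hI
  by_contra hne
  have hS := Y1_mul hG hgen
  have hdef : Pool.Agent.TH119.DR.DefOver QA (Rw (Y1 Λ) j) := by
    intro w hw
    have h1 := Rw_alg (fun δ y hy => Y1_der hG δ hy) j hw
    refine Submodule.span_mono ?_ h1
    rintro w ⟨h2, h3⟩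
    exact ⟨h2, fun i => mem_QA.2 (h3 i)⟩
  obtain ⟨c, hc0, hca, hc⟩ := exists_annih (F := QA) (Rw (Y1 Λ) j)
    (fun f w hw => hdef.map f hw) hne
  have hcδ : ∀ (δ : Derivation ℚ ℂ ℂ) i, δ (c i) = 0 := fun δ i =>
    Pool.Agent.TH119.DR.deriv_alg δ (mem_QA.1 (hca i))
  have hkill : ∀ y ∈ Y1 Λ, y j *ᵥ c = 0 := by
    intro y hy
    funext a
    have h1 := hc _ (Rw_mem (fun x y hy => hS x y hy) hy j a)
    rw [Matrix.mulVec, dotProduct_comm]
    exact h1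
  have hnt := nontriv hP' hG hI j
  obtain ⟨w, hstar⟩ := exists_w hG hgen hnt hkill
  have hwδ' : ∀ (δ : Derivation ℚ ℂ ℂ), (fun a => δ (w a)) = 0 := by
    intro δ
    refine Pool.Agent.TH128.OW.no_inv hgen hnt ?_
    rintro _ ⟨⟨x, y, z⟩, hp, rfl⟩
    have h1 := hstar x y z hp
    have h2 := hstar _ _ _ (hG.der δ hp)
    funext a
    have h3 := congrArg δ (congrFun h1 a)
    rw [der_mulVec_alg δ (y j) (hcδ δ), h2, der_mulVec, left_eq_add] at h3
    exact h3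
  have hwδ : ∀ (δ : Derivation ℚ ℂ ℂ) a, δ (w a) = 0 := fun δ a => congrFun (hwδ' δ) a
  have hlog : ∀ δ : Derivation ℚ ℂ ℂ, ((v j).map δ - (P j).map δ * P' j * v j) *ᵥ c =
      ((P j).map δ * P' j) *ᵥ w := fun δ =>
    hstar _ _ _ (hG.log δ)
  obtain ⟨s, hs⟩ : ∃ s, s = v j *ᵥ c + w := ⟨_, rfl⟩
  have hsδ : ∀ δ : Derivation ℚ ℂ ℂ, (fun a => δ (s a)) = ((P j).map δ * P' j) *ᵥ s := by
    intro δ
    funext a
    have h1 := congrFun (hlog δ) a
    rw [Matrix.sub_mulVec, Pi.sub_apply, sub_eq_iff_eq_add] at h1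
    rw [hs, Pi.add_apply, map_add, hwδ, add_zero, der_mulVec_alg δ (v j) (hcδ δ), h1,
      Matrix.mulVec_add, Pi.add_apply, Matrix.mulVec_mulVec, add_comm]
  obtain ⟨b, hb⟩ : ∃ b, b = P' j *ᵥ s := ⟨_, rfl⟩
  have hPb : s = P j *ᵥ b := by
    rw [hb, Matrix.mulVec_mulVec, hP, Matrix.one_mulVec]
  have hbδ : ∀ (δ : Derivation ℚ ℂ ℂ), (fun a => δ (b a)) = 0 := by
    intro δ
    have h1 : (fun a => δ (s a)) = ((P j).map δ) *ᵥ b + P j *ᵥ fun a => δ (b a) := by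
      funext a
      rw [hPb, der_mulVec]
      rfl
    rw [hsδ δ, ← Matrix.mulVec_mulVec, ← hb, left_eq_add] at h1
    have h2 := congrArg (fun u => P' j *ᵥ u) h1
    simp only [Matrix.mulVec_mulVec, hP', Matrix.one_mulVec, Matrix.mulVec_zero] at h2
    exact h2
  have hba : ∀ a, IsAlgebraic ℚ (b a) := fun a =>
    alg_of_der fun δ => congrFun (hbδ δ) a
  have hwa : ∀ a, IsAlgebraic ℚ (w a) := fun a => alg_of_der fun δ => hwδ δ a
  -- the linear relation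
  obtain ⟨a₀⟩ : Nonempty (N j) := inferInstance
  have h1 := congrFun hs a₀
  rw [hPb, Pi.add_apply] at h1
  have h2 := (hI (w a₀) (Pi.single j (Matrix.of fun a k => if a = a₀ then -(b k) else 0))
    (Pi.single j (Matrix.of fun a k => if a = a₀ then c k else 0)) (hwa a₀) (by
      intro i a k
      by_cases hij : i = j
      · subst hij
        rw [Pi.single_eq_same, Matrix.of_apply]
        split_ifs
        · exact (hba k).neg
        · exact isAlgebraic_zero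
      · rw [Pi.single_eq_of_ne hij]
        exact isAlgebraic_zero) (by
      intro i a k
      by_cases hij : i = j
      · subst hij
        rw [Pi.single_eq_same, Matrix.of_apply]
        split_ifs
        · exact mem_QA.1 (hca k)
        · exact isAlgebraic_zero
      · rw [Pi.single_eq_of_ne hij]
        exact isAlgebraic_zero) (by
      rw [sum_rowm P j a₀ (fun k => -(b k)), sum_rowm v j a₀ c]
      simp only [Matrix.mulVec, dotProduct] at h1
      have h3 : ∑ k, -(b k) * P j a₀ k = -∑ k, P j a₀ k * b k := by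
        rw [← Finset.sum_neg_distrib]
        exact Finset.sum_congr rfl fun k _ => by ring
      have h4 : ∑ k, c k * v j a₀ k = ∑ k, v j a₀ k * c k :=
        Finset.sum_congr rfl fun k _ => mul_comm _ _
      rw [h3, h4, h1]
      ring)).2
  apply hc0
  funext k
  have h3 := congrFun (congrFun (congrFun h2 j) a₀) k
  rw [Pi.single_eq_same, Matrix.of_apply, if_pos rfl] at h3
  exact h3

end Pool.Agent.TH128.OM
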